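import Mathlib

/-!
# Surfaces glued from two copies of a convex polygon
-/

set_option autoImplicit false

namespace Pool.Agent.Gpc

open Set

/-- The determinant of two vectors of the plane. -/
def dt (a b : ℂ) : ℝ := a.re * b.im - a.im * b.re

/-- The point with parameter `t` on the edge `i` of a closed polygon. -/
noncomputable def ed {n : ℕ} (p : ZMod n → ℂ) (i : ZMod n) (t : ℝ) : ℂ :=
  (1 - t) • p i + t • p (i + 1)

/-- A convex polygon: every other vertex lies strictly to the left of the edge from `p i` to
`p (i + 1)`. -/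
def ConvexPolygon {n : ℕ} (p : ZMod n → ℂ) : Prop :=
  ∀ i j, j ≠ i → j ≠ i + 1 → 0 < dt (p (i + 1) - p i) (p j - p i)

/-- A point `(true, z)` is the point `z` of the front, `(false, z)` the point `z` of the back; front
and back are two copies of the convex hull of the `p i`. The edge `i` of the front is glued to the
edge from `p (τ i)` to `p (τ (i + 1))` of the back. -/
def Glued {n : ℕ} (p : ZMod n → ℂ) (τ : ZMod n → ZMod n) (u v : Bool × ℂ) : Prop :=
  ∃ i : ZMod n, ∃ t ∈ Icc (0 : ℝ) 1, u = (true, ed p i t) ∧ v = (false, ed (p ∘ τ) i t)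

/-- Consecutive points of a path are on the same side or glued. -/
def Step {n : ℕ} (p : ZMod n → ℂ) (τ : ZMod n → ZMod n) (u v : Bool × ℂ) : Prop :=
  u.1 = v.1 ∨ Glued p τ u v ∨ Glued p τ v u

/-- Polygonal paths on the surface. -/
def IsPath {n : ℕ} (p : ZMod n → ℂ) (τ : ZMod n → ZMod n) (l : List (Bool × ℂ)) : Prop :=
  (∀ u ∈ l, u.2 ∈ convexHull ℝ (range p)) ∧ l.IsChain (Step p τ)

/-- The length of a path. -/
noncomputable def len : List (Bool × ℂ) → ℝ
  | u :: v :: l => (if u.1 = v.1 then dist u.2 v.2 else 0) + len (v :: l)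
  | _ => 0

/-- The length of the part of a path on the back. -/
noncomputable def lenBack : List (Bool × ℂ) → ℝ
  | u :: v :: l => (if u.1 = false ∧ v.1 = false then dist u.2 v.2 else 0) + lenBack (v :: l)
  | _ => 0

end Pool.Agent.Gpc
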