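import Pool.Agent.Gpc.Defs

set_option autoImplicit false

namespace Pool.Agent.Gpc

open Set

/-- The vertices of the regular polygon with `n` sides. -/
noncomputable def reg (n : ℕ) [NeZero n] (k : ZMod n) : ℂ := ZMod.stdAddChar k

/-- The apex of an isosceles triangle with base `P Q` and legs `s`. -/
noncomputable def apex (s : ℝ) (P Q : ℂ) : ℂ :=
  (P + Q) / 2 - Complex.I * (Q - P) * (Real.sqrt (s ^ 2 / dist P Q ^ 2 - 1 / 4) : ℝ)

-- BEGIN row regC
private theorem regC_re (n : ℕ) [NeZero n] (k : ℕ) :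
    reg n (k : ZMod n) = ⟨Real.cos (k * (2 * Real.pi / n)), Real.sin (k * (2 * Real.pi / n))⟩ := by
  have h := ZMod.stdAddChar_coe (N := n) (k : ℤ)
  have h1 : reg n (k : ZMod n) = Complex.exp (((k * (2 * Real.pi / n) : ℝ) : ℂ) * Complex.I) := by
    show ZMod.stdAddChar ((k : ℕ) : ZMod n) = _
    have h2 : (((k : ℤ)) : ZMod n) = ((k : ℕ) : ZMod n) := by push_cast; rfl
    rw [h2] at h
    rw [h]
    congr 1
    push_cast
    ring
  rw [h1]
  apply Complex.ext
  · rw [Complex.exp_ofReal_mul_I_re]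
  · rw [Complex.exp_ofReal_mul_I_im]

private theorem regC_dt (a k : ℝ) :
    dt (⟨Real.cos (2 * a), Real.sin (2 * a)⟩ - 1) (⟨Real.cos (2 * (k * a)), Real.sin (2 * (k * a))⟩ - 1) =
      4 * Real.sin a * Real.sin (k * a) * Real.sin (k * a - a) := by
  unfold dt
  simp only [Complex.sub_re, Complex.sub_im, Complex.one_re, Complex.one_im]
  rw [Real.cos_two_mul, Real.sin_two_mul, Real.cos_two_mul, Real.sin_two_mul, Real.sin_sub]
  have h1 := Real.sin_sq_add_cos_sq a
  have h2 := Real.sin_sq_add_cos_sq (k * a)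
  have e1 : Real.cos a ^ 2 = 1 - Real.sin a ^ 2 := by linarith
  have e2 : Real.cos (k * a) ^ 2 = 1 - Real.sin (k * a) ^ 2 := by linarith
  rw [e1, e2]
  ring

/-- With a = π / n and j = i + k, k = 2 .. n - 1 (k = (j - i).val): reg (j) - reg i = reg i (reg k - 1), reg k - 1 = 2 i sin (k a) e^(i k a),
dt (reg 1 - 1) (reg k - 1) = 4 sin a sin (k a) sin ((k - 1) a) > 0; dt (w x) (w y) = |w|^2 dt x y. -/
theorem regC (n : ℕ) [NeZero n] (hn : 3 ≤ n) : ConvexPolygon (reg n) := by
  intro i j h1 h2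
  have hn0 : (0 : ℝ) < n := by exact_mod_cast (by omega : 0 < n)
  set k := (j - i).val with hk
  have hkn : k < n := ZMod.val_lt _
  have hkc : ((k : ℕ) : ZMod n) = j - i := ZMod.natCast_zmod_val _
  have hk0 : k ≠ 0 := by
    intro h
    rw [h, Nat.cast_zero] at hkc
    exact h1 (sub_eq_zero.1 hkc.symm)
  have hk1 : k ≠ 1 := by
    intro h
    rw [h, Nat.cast_one] at hkc
    exact h2 (by rw [add_comm]; exact eq_add_of_sub_eq hkc.symm)
  have e : ∀ a b, reg n (a + b) = reg n a * reg n b := fun a b => AddChar.map_add_eq_mul _ _ _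
  have hw : ‖reg n i‖ = 1 := AddChar.norm_apply _ _
  have r1 : reg n (i + 1) - reg n i = reg n i * (reg n ((1 : ℕ) : ZMod n) - 1) := by
    rw [e, mul_sub, mul_one, Nat.cast_one]
  have r2 : reg n j - reg n i = reg n i * (reg n ((k : ℕ) : ZMod n) - 1) := by
    have : j = i + ((k : ℕ) : ZMod n) := by rw [hkc]; ring
    conv_lhs => rw [this]
    rw [e, mul_sub, mul_one]
  have dtm : ∀ w x y : ℂ, dt (w * x) (w * y) = ‖w‖ ^ 2 * dt x y := by
    intro w x y
    rw [← Complex.normSq_eq_norm_sq, Complex.normSq_apply]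
    unfold dt
    simp only [Complex.mul_re, Complex.mul_im]
    ring
  rw [r1, r2, dtm, hw, regC_re, regC_re]
  have a1 : (((1 : ℕ) : ℝ) * (2 * Real.pi / n)) = 2 * (Real.pi / n) := by push_cast; ring
  have a2 : ((k : ℝ) * (2 * Real.pi / n)) = 2 * (k * (Real.pi / n)) := by ring
  rw [a1, a2, regC_dt]
  have ha : 0 < Real.pi / n := div_pos Real.pi_pos hn0
  have hk2 : (2 : ℝ) ≤ k := by exact_mod_cast (by omega : 2 ≤ k)
  have hk3 : (k : ℝ) < n := by exact_mod_cast hkn
  have hkpi : k * (Real.pi / n) < Real.pi := by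
    rw [mul_div_assoc', div_lt_iff₀ hn0, mul_comm Real.pi]
    exact mul_lt_mul_of_pos_right hk3 Real.pi_pos
  have s1 : 0 < Real.sin (Real.pi / n) := Real.sin_pos_of_pos_of_lt_pi ha (by nlinarith)
  have s2 : 0 < Real.sin (k * (Real.pi / n)) :=
    Real.sin_pos_of_pos_of_lt_pi (by positivity) hkpi
  have s3 : 0 < Real.sin (k * (Real.pi / n) - Real.pi / n) :=
    Real.sin_pos_of_pos_of_lt_pi (by nlinarith) (by linarith)
  positivity
-- END row regC

-- BEGIN row apex1
/-- |apex - P|^2 = |Q - P|^2/4 + |Q - P|^2 (s^2/|Q - P|^2 - 1/4) = s^2 (the two parts are orthogonal). -/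
theorem apex1 {s : ℝ} (hs : 0 ≤ s) {P Q : ℂ} (h : P ≠ Q) (h2 : dist P Q ≤ 2 * s) :
    dist (apex s P Q) P = s ∧ dist (apex s P Q) Q = s := by
  have hD : 0 < dist P Q := dist_pos.2 h
  have hr : 0 ≤ s ^ 2 / dist P Q ^ 2 - 1 / 4 := by
    rw [sub_nonneg, le_div_iff₀ (by positivity)]
    nlinarith
  have hr2 := Real.sq_sqrt hr
  unfold apex
  generalize Real.sqrt (s ^ 2 / dist P Q ^ 2 - 1 / 4) = r at hr2
  have key : ∀ c : ℂ, c.re ^ 2 + c.im ^ 2 = 1 / 4 + r ^ 2 → ‖(Q - P) * c‖ = s := by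
    intro c hc
    have h1 : ‖Q - P‖ = dist P Q := by rw [dist_comm, dist_eq_norm]
    have h2 : ‖c‖ ^ 2 = s ^ 2 / dist P Q ^ 2 := by
      rw [Complex.sq_norm, Complex.normSq_apply]
      linarith [hc]
    rw [norm_mul, h1, ← sq_eq_sq₀ (by positivity) hs, mul_pow, h2]
    field_simp
  constructor
  · rw [dist_eq_norm]
    have e : (P + Q) / 2 - Complex.I * (Q - P) * (r : ℂ) - P = (Q - P) * ⟨1 / 2, -r⟩ := by
      have e1 : (⟨1 / 2, -r⟩ : ℂ) = 1 / 2 - (r : ℂ) * Complex.I := by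
        apply Complex.ext <;> simp
      rw [e1]
      ring
    rw [e]
    refine key _ ?_
    norm_num
  · rw [dist_eq_norm]
    have e : (P + Q) / 2 - Complex.I * (Q - P) * (r : ℂ) - Q = (Q - P) * ⟨-(1 / 2), -r⟩ := by
      have e1 : (⟨-(1 / 2), -r⟩ : ℂ) = -(1 / 2) - (r : ℂ) * Complex.I := by
        apply Complex.ext <;> simp
      rw [e1]
      ring
    rw [e]
    refine key _ ?_
    norm_num
-- END row apex1

-- BEGIN row apex2
private theorem apex2_z (n : ℕ) [NeZero n] (hn : 3 ≤ n) :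
    ∃ C S : ℝ, C ^ 2 + S ^ 2 = 1 ∧ 0 < S ∧ reg n 1 = (C : ℂ) + (S : ℂ) * Complex.I := by
  have hn3 : (3 : ℝ) ≤ n := by exact_mod_cast hn
  have hn0 : (0 : ℝ) < n := by linarith
  refine ⟨Real.cos (2 * Real.pi / n), Real.sin (2 * Real.pi / n), ?_, ?_, ?_⟩
  · rw [add_comm]
    exact Real.sin_sq_add_cos_sq _
  · refine Real.sin_pos_of_pos_of_lt_pi (by positivity) ?_
    rw [div_lt_iff₀ hn0]
    nlinarith [Real.pi_pos]
  · have h1 := ZMod.stdAddChar_coe (N := n) 1
    rw [Int.cast_one, Int.cast_one] at h1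
    show ZMod.stdAddChar (1 : ZMod n) = _
    rw [h1, Complex.ofReal_cos, Complex.ofReal_sin, ← Complex.exp_mul_I]
    congr 1
    push_cast
    ring

/-- z = reg 1 = e^(i t), t = 2 π / n < π: reg 0 = 1, reg 3 - reg 1 = z^2 (z - 1/z) = 2 i sin t z^2, dist^2 = 4 sin^2 t,
s^2 = 2 - 2 cos t, so the root is (1 - cos t)/(2 sin t), and (reg 1 + reg 3)/2 = z^2 cos t. -/
theorem apex2 (n : ℕ) [NeZero n] (hn : 3 ≤ n) :
    apex (dist (reg n 0) (reg n 1)) (reg n 1) (reg n 3) = reg n 2 := by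
  obtain ⟨C, S, hCS, hS, hz⟩ := apex2_z n hn
  have h0 : reg n 0 = 1 := AddChar.map_zero_eq_one _
  have h2 : reg n 2 = reg n 1 ^ 2 := by
    have h : (2 : ZMod n) = 1 + 1 := by norm_num
    show ZMod.stdAddChar (2 : ZMod n) = _
    rw [h, AddChar.map_add_eq_mul, sq]
    rfl
  have h3 : reg n 3 = reg n 1 ^ 3 := by
    have h : (3 : ZMod n) = 1 + 1 + 1 := by norm_num
    show ZMod.stdAddChar (3 : ZMod n) = _
    rw [h, AddChar.map_add_eq_mul, AddChar.map_add_eq_mul, pow_succ, sq]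
    rfl
  have hn1 : ‖reg n 1‖ = 1 := AddChar.norm_apply _ _
  rw [h0, h2, h3]
  generalize reg n 1 = z at hz hn1
  have hC : (C : ℂ) ^ 2 + (S : ℂ) ^ 2 = 1 := by exact_mod_cast hCS
  have hI : Complex.I ^ 2 = -1 := Complex.I_sq
  have e1 : z ^ 3 - z = z ^ 2 * (2 * S * Complex.I) := by
    rw [hz]
    linear_combination ((C : ℂ) + S * Complex.I) * hC - (S : ℂ) ^ 2 * ((C : ℂ) + S * Complex.I) * hI
  have e2 : z + z ^ 3 = z ^ 2 * (2 * C) := by
    rw [hz]
    linear_combination (-((C : ℂ) + S * Complex.I)) * hC +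
      (S : ℂ) ^ 2 * ((C : ℂ) + S * Complex.I) * hI
  have hd : dist z (z ^ 3) = 2 * S := by
    rw [dist_comm, dist_eq_norm, e1, norm_mul, norm_pow, hn1, one_pow, one_mul, norm_mul,
      Complex.norm_I, mul_one, norm_mul, Complex.norm_real, Real.norm_of_nonneg hS.le]
    norm_num
  have hs : dist 1 z ^ 2 = 2 - 2 * C := by
    rw [dist_eq_norm, Complex.sq_norm, Complex.normSq_apply, hz]
    simp
    nlinarith [hCS]
  have hC1 : C ≤ 1 := by nlinarith [sq_nonneg S, sq_nonneg (C - 1)]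
  have hr : Real.sqrt (dist 1 z ^ 2 / dist z (z ^ 3) ^ 2 - 1 / 4) = (1 - C) / (2 * S) := by
    have h4 : dist 1 z ^ 2 / dist z (z ^ 3) ^ 2 - 1 / 4 = ((1 - C) / (2 * S)) ^ 2 := by
      rw [hs, hd]
      field_simp
      linear_combination (-4 : ℝ) * hCS
    rw [h4]
    exact Real.sqrt_sq (div_nonneg (by linarith) (by linarith))
  have hS0 : (S : ℂ) ≠ 0 := by exact_mod_cast hS.ne'
  rw [apex, hr, e1, e2]
  push_cast
  field_simp
  linear_combination (z ^ 2 * ((C : ℂ) - 1)) * hI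
-- END row apex2

-- BEGIN row regq
private theorem regq_aux {a b : ℂ} (ha : a ≠ 0) (hb : b ≠ 0) {c t : ℝ} (ht : t ≠ 0) (hc : c ≠ 1)
    (hct : c ^ 2 + t ^ 2 = 1) (e1 : ‖a + (⟨c, t⟩ : ℂ) * b‖ = ‖a + b‖)
    (e2 : ‖a + (⟨c, -t⟩ : ℂ) * b‖ = ‖a + b‖) : False := by
  have f1 : Complex.normSq (a + (⟨c, t⟩ : ℂ) * b) = Complex.normSq (a + b) := by
    rw [Complex.normSq_eq_norm_sq, Complex.normSq_eq_norm_sq, e1]
  have f2 : Complex.normSq (a + (⟨c, -t⟩ : ℂ) * b) = Complex.normSq (a + b) := by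
    rw [Complex.normSq_eq_norm_sq, Complex.normSq_eq_norm_sq, e2]
  simp only [Complex.normSq_apply, Complex.add_re, Complex.add_im, Complex.mul_re,
    Complex.mul_im] at f1 f2
  have hX : a.re * b.re + a.im * b.im = 0 := by
    have h : (1 - c) * (a.re * b.re + a.im * b.im) = 0 := by
      linear_combination (-1 / 4 : ℝ) * f1 + (-1 / 4 : ℝ) * f2 +
        (1 / 2 : ℝ) * (b.re ^ 2 + b.im ^ 2) * hct
    exact (mul_eq_zero.mp h).resolve_left (sub_ne_zero.mpr hc.symm)
  have hY : a.im * b.re - a.re * b.im = 0 := by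
    have h : t * (a.im * b.re - a.re * b.im) = 0 := by
      linear_combination (1 / 4 : ℝ) * f1 - (1 / 4 : ℝ) * f2
    exact (mul_eq_zero.mp h).resolve_left ht
  have hN : Complex.normSq a * Complex.normSq b = 0 := by
    simp only [Complex.normSq_apply]
    linear_combination (a.re * b.re + a.im * b.im) * hX + (a.im * b.re - a.re * b.im) * hY
  rcases mul_eq_zero.mp hN with h | h
  · exact ha (Complex.normSq_eq_zero.mp h)
  · exact hb (Complex.normSq_eq_zero.mp h)

private theorem regq_ne (n : ℕ) [NeZero n] {i j : ℕ} (hi : i < n) (hj : j < n)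
    (h : i ≠ j) : reg n (i : ZMod n) ≠ reg n (j : ZMod n) := by
  intro hh
  have h1 := ZMod.injective_stdAddChar hh
  rw [ZMod.natCast_eq_natCast_iff'] at h1
  rw [Nat.mod_eq_of_lt hi, Nat.mod_eq_of_lt hj] at h1
  exact h h1

/-- s = dist (reg 0) (reg 1). q φ = reg 0 + e^(iφ) (reg 1 - reg 0), r φ = apex s (q φ) (reg 3). At φ = 0: q = reg 1, r = reg 2
(`apex2`); apex is continuous there (reg 1 ≠ reg 3), dist (reg 1) (reg 3) < 2 s: so all small φ give the first five statements (`apex1`).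
Not all small φ have dist (q φ) (reg 3) = dist (reg 1) (reg 3): with z = conj (reg 3 - reg 0) (reg 1 - reg 0) ≠ 0 it means
Re (e^(iφ) z) = Re z; for φ and -φ, 0 < φ < π: z = 0. -/
theorem regq (n : ℕ) [NeZero n] (hn : 5 ≤ n) {ε : ℝ} (hε : 0 < ε) :
    ∃ q r : ℂ, dist q (reg n 1) < ε ∧ dist r (reg n 2) < ε ∧
      dist (reg n 0) q = dist (reg n 0) (reg n 1) ∧ dist q r = dist (reg n 0) (reg n 1) ∧
      dist r (reg n 3) = dist (reg n 0) (reg n 1) ∧
      dist q (reg n 3) ≠ dist (reg n 1) (reg n 3) := by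
  have hnm : ∀ i, ‖reg n i‖ = 1 := fun i => AddChar.norm_apply _ _
  have h10 : reg n 1 ≠ reg n 0 := by
    simpa using regq_ne n (i := 1) (j := 0) (by omega) (by omega) (by norm_num)
  have h30 : reg n 3 ≠ reg n 0 := by
    simpa using regq_ne n (i := 3) (j := 0) (by omega) (by omega) (by norm_num)
  have h13 : reg n 1 ≠ reg n 3 := by
    simpa using regq_ne n (i := 1) (j := 3) (by omega) (by omega) (by norm_num)
  have e0 : reg n 0 = 1 := AddChar.map_zero_eq_one _
  have e3 : reg n 3 = reg n 1 ^ 3 := by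
    show ZMod.stdAddChar (3 : ZMod n) = ZMod.stdAddChar (1 : ZMod n) ^ 3
    rw [← AddChar.map_nsmul_eq_pow]
    congr 1
    simp
  obtain ⟨s, hs⟩ : ∃ s : ℝ, s = dist (reg n 0) (reg n 1) := ⟨_, rfl⟩
  have hs0 : 0 < s := by rw [hs]; exact dist_pos.mpr h10.symm
  have ap2 := apex2 n (by omega)
  rw [← hs] at ap2 ⊢
  have hlt : dist (reg n 1) (reg n 3) < 2 * s := by
    rw [e0] at hs h10
    rw [e3, hs, dist_eq_norm, dist_eq_norm]
    have hz1 : ‖reg n 1‖ = 1 := hnm 1
    generalize reg n 1 = z at hz1 h10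
    have h1 : z - z ^ 3 = z * ((1 - z) * (1 + z)) := by ring
    rw [h1, norm_mul, norm_mul, hz1, one_mul, mul_comm]
    refine mul_lt_mul_of_pos_right ?_ (norm_pos_iff.mpr (sub_ne_zero.mpr h10.symm))
    have h2 : ‖z‖ ^ 2 = 1 := by rw [hz1]; norm_num
    rw [← Complex.normSq_eq_norm_sq, Complex.normSq_apply] at h2
    have h3 : z.re < 1 := by
      rcases lt_or_ge z.re 1 with h | h
      · exact h
      · exfalso
        apply h10
        have h4 : z.re = 1 := by nlinarith [mul_self_nonneg z.im]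
        have h5 : z.im = 0 := by
          rw [h4] at h2
          have : z.im * z.im = 0 := by linarith
          exact mul_self_eq_zero.mp this
        exact Complex.ext h4 h5
    have h6 : ‖1 + z‖ ^ 2 < 2 ^ 2 := by
      rw [← Complex.normSq_eq_norm_sq, Complex.normSq_apply]
      simp only [Complex.add_re, Complex.add_im, Complex.one_re, Complex.one_im]
      nlinarith
    exact lt_of_pow_lt_pow_left₀ 2 (by norm_num) h6
  obtain ⟨q, hq⟩ : ∃ q : ℝ → ℂ, q = fun φ => reg n 0 +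
      (⟨Real.cos φ, Real.sin φ⟩ : ℂ) * (reg n 1 - reg n 0) := ⟨_, rfl⟩
  have hcs : Continuous fun φ : ℝ => (⟨Real.cos φ, Real.sin φ⟩ : ℂ) := by
    have h : (fun φ : ℝ => (⟨Real.cos φ, Real.sin φ⟩ : ℂ)) =
        fun φ : ℝ => (Real.cos φ : ℂ) + (Real.sin φ : ℂ) * Complex.I := by
      funext φ
      apply Complex.ext <;> simp [-Complex.ofReal_cos, -Complex.ofReal_sin]
    rw [h]
    fun_prop
  have hqc : Continuous q := by
    rw [hq]
    exact continuous_const.add (hcs.mul continuous_const)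
  have hq0 : q 0 = reg n 1 := by
    rw [hq]
    show reg n 0 + (⟨Real.cos 0, Real.sin 0⟩ : ℂ) * (reg n 1 - reg n 0) = reg n 1
    rw [Real.cos_zero, Real.sin_zero]
    have : (⟨1, 0⟩ : ℂ) = 1 := rfl
    rw [this]; ring
  have hrc : ContinuousAt (fun φ => apex s (q φ) (reg n 3)) 0 := by
    unfold apex
    have hd : dist (q 0) (reg n 3) ^ 2 ≠ 0 := by
      rw [hq0]
      exact pow_ne_zero 2 (dist_pos.mpr h13).ne'
    have h1 : ContinuousAt (fun φ => Real.sqrt (s ^ 2 / dist (q φ) (reg n 3) ^ 2 - 1 / 4)) 0 := by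
      refine Real.continuous_sqrt.continuousAt.comp ?_
      refine ContinuousAt.sub ?_ continuousAt_const
      refine ContinuousAt.div continuousAt_const ?_ hd
      exact ((hqc.dist continuous_const).pow 2).continuousAt
    refine ContinuousAt.sub ?_ ?_
    · exact ((hqc.add continuous_const).div_const 2).continuousAt
    · refine ContinuousAt.mul ?_ ?_
      · exact (continuous_const.mul (continuous_const.sub hqc)).continuousAt
      · exact Complex.continuous_ofReal.continuousAt.comp h1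
  have n1 : ∀ᶠ φ in nhds (0 : ℝ), dist (q φ) (reg n 1) < ε := by
    have h := hqc.continuousAt (x := 0)
    rw [Metric.continuousAt_iff'] at h
    have := h ε hε
    rwa [hq0] at this
  have n2 : ∀ᶠ φ in nhds (0 : ℝ), dist (apex s (q φ) (reg n 3)) (reg n 2) < ε := by
    rw [Metric.continuousAt_iff'] at hrc
    have := hrc ε hε
    rwa [hq0, ap2] at this
  have n3 : ∀ᶠ φ in nhds (0 : ℝ), dist (q φ) (reg n 3) < 2 * s := by
    have h := (hqc.dist (continuous_const (y := reg n 3))).continuousAt (x := 0)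
    exact h.eventually_lt continuousAt_const (by simpa [hq0] using hlt)
  have n4 : ∀ᶠ φ in nhds (0 : ℝ), 0 < dist (q φ) (reg n 3) := by
    have h := (hqc.dist (continuous_const (y := reg n 3))).continuousAt (x := 0)
    exact continuousAt_const.eventually_lt h (by simpa [hq0] using h13)
  obtain ⟨δ, hδ, hall⟩ := Metric.eventually_nhds_iff.mp (n1.and (n2.and (n3.and n4)))
  have hgood : ∀ φ : ℝ, |φ| < δ → dist (q φ) (reg n 3) ≠ dist (reg n 1) (reg n 3) →
      ∃ q r : ℂ, dist q (reg n 1) < ε ∧ dist r (reg n 2) < ε ∧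
      dist (reg n 0) q = s ∧ dist q r = s ∧
      dist r (reg n 3) = s ∧
      dist q (reg n 3) ≠ dist (reg n 1) (reg n 3) := by
    intro φ hφ hne
    obtain ⟨a1, a2, a3, a4⟩ := hall (y := φ) (by simpa [Real.dist_eq] using hφ)
    obtain ⟨b1, b2⟩ := apex1 hs0.le (dist_pos.mp a4) a3.le
    refine ⟨q φ, apex s (q φ) (reg n 3), a1, a2, ?_, by rw [dist_comm]; exact b1, b2, hne⟩
    rw [dist_comm, dist_eq_norm, hq]
    have hc1 : ‖(⟨Real.cos φ, Real.sin φ⟩ : ℂ)‖ = 1 := by
      rw [Complex.norm_def, Complex.normSq_apply]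
      show Real.sqrt (Real.cos φ * Real.cos φ + Real.sin φ * Real.sin φ) = 1
      rw [← sq, ← sq, Real.cos_sq_add_sin_sq, Real.sqrt_one]
    rw [add_sub_cancel_left, norm_mul, hc1, one_mul, ← dist_eq_norm, dist_comm, hs]
  obtain ⟨φ, hφ⟩ : ∃ φ : ℝ, φ = min (δ / 2) 1 := ⟨_, rfl⟩
  have hφ0 : 0 < φ := by rw [hφ]; exact lt_min (by linarith) one_pos
  have hφ1 : φ ≤ 1 := by rw [hφ]; exact min_le_right _ _
  have hφd : φ < δ := by
    have : φ ≤ δ / 2 := by rw [hφ]; exact min_le_left _ _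
    linarith
  by_cases c1 : dist (q φ) (reg n 3) = dist (reg n 1) (reg n 3)
  · by_cases c2 : dist (q (-φ)) (reg n 3) = dist (reg n 1) (reg n 3)
    · exfalso
      have hsin : 0 < Real.sin φ := Real.sin_pos_of_pos_of_le_one hφ0 hφ1
      have hcos : Real.cos φ ≠ 1 := by
        intro h
        have := Real.sin_sq_add_cos_sq φ
        rw [h] at this
        nlinarith
      refine regq_aux (a := reg n 0 - reg n 3) (b := reg n 1 - reg n 0)
        (sub_ne_zero.mpr h30.symm) (sub_ne_zero.mpr h10) hsin.ne' hcos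
        (Real.cos_sq_add_sin_sq φ) ?_ ?_
      · rw [dist_eq_norm, dist_eq_norm, hq] at c1
        rw [show reg n 0 - reg n 3 + (reg n 1 - reg n 0) = reg n 1 - reg n 3 by ring, ← c1]
        congr 1
        ring
      · rw [dist_eq_norm, dist_eq_norm, hq] at c2
        simp only [Real.cos_neg, Real.sin_neg] at c2
        rw [show reg n 0 - reg n 3 + (reg n 1 - reg n 0) = reg n 1 - reg n 3 by ring, ← c2]
        congr 1
        ring
    · exact hgood (-φ) (by rw [abs_neg, abs_of_pos hφ0]; exact hφd) c2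
  · exact hgood φ (by rw [abs_of_pos hφ0]; exact hφd) c1
-- END row regq

theorem regD (n : ℕ) [NeZero n] (i j : ZMod n) :
    dist (reg n (i + 1)) (reg n (j + 1)) = dist (reg n i) (reg n j) := by
  have h : ∀ k, reg n (k + 1) = reg n 1 * reg n k := by
    intro k
    show ZMod.stdAddChar (k + 1) = ZMod.stdAddChar 1 * ZMod.stdAddChar k
    rw [add_comm, AddChar.map_add_eq_mul]
  have h1 : ‖reg n 1‖ = 1 := AddChar.norm_apply _ _
  rw [h, h, dist_eq_norm, ← mul_sub, norm_mul, h1, one_mul, ← dist_eq_norm]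

-- BEGIN row regE
private theorem regE_ne {n : ℕ} [NeZero n] {a b : ℕ} (h1 : a < b) (h2 : b < a + n) :
    ((a : ℕ) : ZMod n) ≠ ((b : ℕ) : ZMod n) := by
  intro h
  have h3 : ((b - a : ℕ) : ZMod n) = 0 := by
    rw [Nat.cast_sub h1.le, h, sub_self]
  have h4 := (ZMod.natCast_eq_zero_iff (b - a) n).1 h3
  have h5 := Nat.le_of_dvd (by omega) h4
  omega

private theorem regE_side (n : ℕ) [NeZero n] (i : ZMod n) :
    dist (reg n i) (reg n (i + 1)) = dist (reg n 0) (reg n 1) := by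
  have key : ∀ k : ℕ, dist (reg n (k : ZMod n)) (reg n ((k : ZMod n) + 1)) =
      dist (reg n 0) (reg n 1) := by
    intro k
    induction k with
    | zero => simp
    | succ k ih =>
      push_cast
      rw [regD n (k : ZMod n) ((k : ZMod n) + 1), ih]
  have h := key i.val
  rwa [ZMod.natCast_zmod_val] at h

/-- p = reg except p 1 = q, p 2 = r of `regq`. Sides: all equal to s (`regD` for the others). If the shift were a symmetry of p:
dist (p 1) (p 3) = dist (p 2) (p 4) = dist (p 3) (p 5) = dist (reg 3) (reg 5) = dist (reg 1) (reg 3) (`regD`). (0, 1, 2, 3, 4 are different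
in ZMod n; 5 is not 1 or 2.) -/
theorem regE (n : ℕ) [NeZero n] (hn : 5 ≤ n) {ε : ℝ} (hε : 0 < ε) :
    ∃ p : ZMod n → ℂ, (∀ i, dist (p i) (reg n i) < ε) ∧
      (∀ i j, dist (p i) (p (i + 1)) = dist (p j) (p (j + 1))) ∧
      ¬ ∀ i j, dist (p (i + 1)) (p (j + 1)) = dist (p i) (p j) := by
  obtain ⟨q, r, hq, hr, h01, h12, h23, hne⟩ := regq n hn hε
  have e01 : (0 : ZMod n) ≠ 1 := by
    simpa using regE_ne (n := n) (a := 0) (b := 1) (by omega) (by omega)
  have e02 : (0 : ZMod n) ≠ 2 := by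
    simpa using regE_ne (n := n) (a := 0) (b := 2) (by omega) (by omega)
  have e12 : (1 : ZMod n) ≠ 2 := by
    simpa using regE_ne (n := n) (a := 1) (b := 2) (by omega) (by omega)
  have e13 : (1 : ZMod n) ≠ 3 := by
    simpa using regE_ne (n := n) (a := 1) (b := 3) (by omega) (by omega)
  have e23 : (2 : ZMod n) ≠ 3 := by
    simpa using regE_ne (n := n) (a := 2) (b := 3) (by omega) (by omega)
  have e15 : (1 : ZMod n) ≠ 5 := by
    simpa using regE_ne (n := n) (a := 1) (b := 5) (by omega) (by omega)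
  have e25 : (2 : ZMod n) ≠ 5 := by
    simpa using regE_ne (n := n) (a := 2) (b := 5) (by omega) (by omega)
  obtain ⟨p, hp⟩ : ∃ p : ZMod n → ℂ, p = fun i => if i = 1 then q else if i = 2 then r else reg n i :=
    ⟨_, rfl⟩
  have p1 : p 1 = q := by rw [hp]; simp
  have p2 : p 2 = r := by rw [hp]; simp [e12.symm]
  have pe : ∀ i, i ≠ 1 → i ≠ 2 → p i = reg n i := by
    intro i h1 h2
    rw [hp]
    simp [h1, h2]
  have side : ∀ i, dist (p i) (p (i + 1)) = dist (reg n 0) (reg n 1) := by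
    intro i
    by_cases h0 : i = 0
    · rw [h0, zero_add, p1, pe 0 e01 e02, h01]
    by_cases h1 : i = 1
    · have : (1 : ZMod n) + 1 = 2 := by norm_num
      rw [h1, this, p1, p2, h12]
    by_cases h2 : i = 2
    · have : (2 : ZMod n) + 1 = 3 := by norm_num
      rw [h2, this, p2, pe 3 e13.symm e23.symm, h23]
    have h3 : i + 1 ≠ 1 := by
      intro h
      exact h0 (by simpa using h)
    have h4 : i + 1 ≠ 2 := by
      intro h
      apply h1
      have : (2 : ZMod n) = 1 + 1 := by norm_num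
      rw [this] at h
      exact add_right_cancel h
    rw [pe i h1 h2, pe (i + 1) h3 h4, regE_side]
  refine ⟨p, fun i => ?_, fun i j => by rw [side, side], fun h => ?_⟩
  · by_cases h1 : i = 1
    · rw [h1, p1]
      exact hq
    by_cases h2 : i = 2
    · rw [h2, p2]
      exact hr
    rw [pe i h1 h2, dist_self]
    exact hε
  · have a1 := h 1 3
    have a2 := h 2 4
    have b1 := regD n 2 4
    have b2 := regD n 1 3
    have c1 : (1 : ZMod n) + 1 = 2 := by norm_num
    have c2 : (2 : ZMod n) + 1 = 3 := by norm_num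
    have c3 : (3 : ZMod n) + 1 = 4 := by norm_num
    have c4 : (4 : ZMod n) + 1 = 5 := by norm_num
    rw [c1, c3] at a1 b2
    rw [c2, c4] at a2 b1
    rw [pe 3 e13.symm e23.symm, pe 5 e15.symm e25.symm] at a2
    rw [p1, pe 3 e13.symm e23.symm] at a1
    apply hne
    rw [← a1, ← a2, b1, b2]
-- END row regE

end Pool.Agent.Gpc
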