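import Pool.Agent.Gpc.Defs

set_option autoImplicit false

namespace Pool.Agent.Gpc

open Set

variable {n : ℕ} {p p₀ : ZMod n → ℂ} {τ : ZMod n → ZMod n}

-- BEGIN row gapv
/-- c = r^2/(16 R^2). With a = ‖X‖, b = ‖Y‖, s = ⟨X, Y⟩: r ≤ a (Cauchy-Schwarz), so c ≤ 1/4. If b = 0 trivial.
Z = b X + a Y has ‖Z‖^2 = 2 a b (a b + s) and ⟨Z, ν⟩ ≥ b r, so b^2 r^2 ≤ 2 a b (a b + s), hence
a b + s ≥ b r^2 / (2 a) ≥ b r^2 / (4 R). Now ‖X - Y‖^2 = a^2 + b^2 - 2 s and (a + (1 - c) b)^2 - (a^2 + b^2 - 2 s)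
= 2 (a b + s) - 2 c a b - 2 c b^2 + c^2 b^2 ≥ 2 b (r^2/(4 R) - 4 R c) = 0. -/
theorem gapv {X Y ν : ℂ} {r R : ℝ} (hr : 0 < r) (hR : 0 < R) (hν : ν.re ^ 2 + ν.im ^ 2 ≤ 1)
    (hX : r ≤ X.re * ν.re + X.im * ν.im) (hY : 0 ≤ Y.re * ν.re + Y.im * ν.im)
    (hXR : ‖X‖ ≤ 2 * R) (hYR : ‖Y‖ ≤ 2 * R) :
    ‖X - Y‖ ≤ ‖X‖ + (1 - r ^ 2 / (16 * R ^ 2)) * ‖Y‖ := by
  obtain ⟨a, ha⟩ : ∃ a, a = ‖X‖ := ⟨_, rfl⟩
  obtain ⟨b, hb⟩ : ∃ b, b = ‖Y‖ := ⟨_, rfl⟩
  obtain ⟨s, hs⟩ : ∃ s, s = X.re * Y.re + X.im * Y.im := ⟨_, rfl⟩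
  obtain ⟨c, hc⟩ : ∃ c, c = r ^ 2 / (16 * R ^ 2) := ⟨_, rfl⟩
  have hn : ∀ z : ℂ, ‖z‖ ^ 2 = z.re ^ 2 + z.im ^ 2 := fun z => by
    rw [Complex.sq_norm, Complex.normSq_apply]
    ring
  have ha2 : a ^ 2 = X.re ^ 2 + X.im ^ 2 := by rw [ha, hn]
  have hb2 : b ^ 2 = Y.re ^ 2 + Y.im ^ 2 := by rw [hb, hn]
  have ha0 : 0 ≤ a := by rw [ha]; exact norm_nonneg _
  have hb0 : 0 ≤ b := by rw [hb]; exact norm_nonneg _
  rw [← ha] at hXR
  rw [← hb] at hYR
  rw [← ha, ← hb, ← hc]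
  have hcR : c * (16 * R ^ 2) = r ^ 2 := by
    rw [hc]
    exact div_mul_cancel₀ _ (by positivity)
  have hcs : ∀ u v : ℝ, (u * ν.re + v * ν.im) ^ 2 ≤ u ^ 2 + v ^ 2 := fun u v => by
    have h1 : (u * ν.re + v * ν.im) ^ 2 + (u * ν.im - v * ν.re) ^ 2 =
        (u ^ 2 + v ^ 2) * (ν.re ^ 2 + ν.im ^ 2) := by ring
    have h2 : (u ^ 2 + v ^ 2) * (ν.re ^ 2 + ν.im ^ 2) ≤ (u ^ 2 + v ^ 2) * 1 :=
      mul_le_mul_of_nonneg_left hν (by positivity)
    nlinarith [sq_nonneg (u * ν.im - v * ν.re)]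
  have hra : r ≤ a := by
    have h1 : r ^ 2 ≤ a ^ 2 := by
      rw [ha2]
      exact (pow_le_pow_left₀ hr.le hX 2).trans (hcs X.re X.im)
    exact (pow_le_pow_iff_left₀ hr.le ha0 (by norm_num)).1 h1
  have hc0 : 0 ≤ c := by rw [hc]; positivity
  have hc1 : c ≤ 1 / 4 := by
    have h1 : r ^ 2 ≤ (2 * R) ^ 2 := pow_le_pow_left₀ hr.le (hra.trans hXR) 2
    have h2 : 0 < 16 * R ^ 2 := by positivity
    by_contra hcon
    have h3 : 1 / 4 * (16 * R ^ 2) < c * (16 * R ^ 2) :=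
      mul_lt_mul_of_pos_right (not_le.1 hcon) h2
    rw [hcR] at h3
    nlinarith
  have hap : 0 < a := lt_of_lt_of_le hr hra
  -- the main inequality
  have h1 : (b * r) ^ 2 ≤ 2 * a * b * (a * b + s) := by
    have h2 : b * r ≤ (b * X.re + a * Y.re) * ν.re + (b * X.im + a * Y.im) * ν.im := by
      have h3 : b * r ≤ b * (X.re * ν.re + X.im * ν.im) := mul_le_mul_of_nonneg_left hX hb0
      have h4 : 0 ≤ a * (Y.re * ν.re + Y.im * ν.im) := mul_nonneg ha0 hY
      linarith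
    have h5 := (pow_le_pow_left₀ (mul_nonneg hb0 hr.le) h2 2).trans
      (hcs (b * X.re + a * Y.re) (b * X.im + a * Y.im))
    have h6 : (b * X.re + a * Y.re) ^ 2 + (b * X.im + a * Y.im) ^ 2 =
        2 * a * b * (a * b + s) := by
      rw [hs]
      linear_combination (-b ^ 2) * ha2 + (-a ^ 2) * hb2
    linarith
  have hsq : ‖X - Y‖ ^ 2 = a ^ 2 + b ^ 2 - 2 * s := by
    rw [hn, Complex.sub_re, Complex.sub_im, ha2, hb2, hs]
    ring
  have hfin : ‖X - Y‖ ^ 2 ≤ (a + (1 - c) * b) ^ 2 := by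
    rw [hsq]
    rcases hb0.eq_or_lt with h | hbp
    · have hY0 : Y.re ^ 2 + Y.im ^ 2 = 0 := by rw [← hb2, ← h]; norm_num
      have hre : Y.re = 0 := by nlinarith [sq_nonneg Y.re, sq_nonneg Y.im]
      have him : Y.im = 0 := by nlinarith [sq_nonneg Y.re, sq_nonneg Y.im]
      rw [hs, hre, him, ← h]
      norm_num
    · have h2 : b * r ^ 2 ≤ 2 * a * (a * b + s) := by
        have h3 : b * (b * r ^ 2) ≤ b * (2 * a * (a * b + s)) := by
          have h4 : b * (b * r ^ 2) = (b * r) ^ 2 := by ring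
          have h5 : b * (2 * a * (a * b + s)) = 2 * a * b * (a * b + s) := by ring
          rw [h4, h5]
          exact h1
        exact le_of_mul_le_mul_left h3 hbp
      have h6 : 0 ≤ a * b + s := by
        by_contra hcon
        have h7 : 2 * a * (a * b + s) < 0 :=
          mul_neg_of_pos_of_neg (by positivity) (not_le.1 hcon)
        have h8 : 0 ≤ b * r ^ 2 := by positivity
        linarith
      have h9 : b * r ^ 2 ≤ 4 * R * (a * b + s) := by
        have h10 : 2 * a * (a * b + s) ≤ 4 * R * (a * b + s) :=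
          mul_le_mul_of_nonneg_right (by linarith) h6
        exact h2.trans h10
      have h11 : 4 * R * b * c ≤ a * b + s := by
        have h12 : 4 * R * (4 * R * b * c) ≤ 4 * R * (a * b + s) := by
          have h13 : 4 * R * (4 * R * b * c) = b * (c * (16 * R ^ 2)) := by ring
          rw [h13, hcR]
          exact h9
        exact le_of_mul_le_mul_left h12 (by positivity)
      have h14 : c * b * (a + b) ≤ c * b * (4 * R) :=
        mul_le_mul_of_nonneg_left (by linarith) (mul_nonneg hc0 hb0)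
      have h15 : 0 ≤ (c * b) ^ 2 := sq_nonneg _
      have h16 : (a + (1 - c) * b) ^ 2 = (a ^ 2 + b ^ 2 - 2 * s) + 2 * (a * b + s) -
          2 * (c * b * (a + b)) + (c * b) ^ 2 := by ring
      rw [h16]
      linarith
  have hR0 : 0 ≤ a + (1 - c) * b := add_nonneg ha0 (mul_nonneg (by linarith) hb0)
  exact (pow_le_pow_iff_left₀ (norm_nonneg _) hR0 (by norm_num)).1 hfin
-- END row gapv

-- BEGIN row gap
/-- `gapv` with r = ρ/(2 R), e = p (i+1) - p i, ν = (-e.im, e.re)/‖e‖, X = x - ed p i t, Y = ed p j s - ed p i t: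
dt e X = dt e (x - p i) ≥ ρ, ‖e‖ ≤ 2 R, dt e Y = (1-s) dt e (p j - p i) + s dt e (p (j+1) - p i) ≥ 0 by convexity
(0 if the index is i or i + 1). dist x b = ‖X - Y‖. ρ^2/(64 R^4) = r^2/(16 R^2). -/
theorem gap (hp : ConvexPolygon p) {R ρ : ℝ} (hR : 0 < R) (hρ : 0 < ρ) (hpR : ∀ i, ‖p i‖ ≤ R)
    {x : ℂ} (hxR : ‖x‖ ≤ R) (hx : ∀ i, ρ ≤ dt (p (i + 1) - p i) (x - p i))
    (i j : ZMod n) {t s : ℝ} (ht : t ∈ Icc (0 : ℝ) 1) (hs : s ∈ Icc (0 : ℝ) 1) :
    dist x (ed p j s) ≤ dist x (ed p i t) +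
      (1 - ρ ^ 2 / (64 * R ^ 4)) * dist (ed p i t) (ed p j s) := by
  have hed : ∀ (k : ZMod n) (a : ℝ), a ∈ Icc (0 : ℝ) 1 → ‖ed p k a‖ ≤ R := by
    intro k a ha
    unfold ed
    refine (norm_add_le _ _).trans ?_
    rw [norm_smul, norm_smul, Real.norm_of_nonneg (sub_nonneg.2 ha.2), Real.norm_of_nonneg ha.1]
    have g1 := mul_le_mul_of_nonneg_left (hpR k) (sub_nonneg.2 ha.2)
    have g2 := mul_le_mul_of_nonneg_left (hpR (k + 1)) ha.1
    linarith
  have hk : ∀ k, 0 ≤ dt (p (i + 1) - p i) (p k - p i) := by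
    intro k
    by_cases h1 : k = i
    · rw [h1]
      simp [dt]
    · by_cases h2 : k = i + 1
      · rw [h2]
        unfold dt
        apply le_of_eq
        ring
      · exact (hp i k h1 h2).le
  set e : ℂ := p (i + 1) - p i with he
  have hen : e ≠ 0 := by
    intro h
    have h3 := hx i
    rw [← he, h] at h3
    simp only [dt, Complex.zero_re, Complex.zero_im, zero_mul, sub_zero] at h3
    linarith
  have hE : 0 < ‖e‖ := norm_pos_iff.2 hen
  have hE2 : ‖e‖ ≤ 2 * R := (norm_sub_le _ _).trans (by linarith [hpR (i + 1), hpR i])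
  have hEs : ‖e‖ ^ 2 = e.re ^ 2 + e.im ^ 2 := by
    rw [← Complex.normSq_eq_norm_sq, Complex.normSq_apply]
    ring
  have edi : ed p i t = p i + (t : ℂ) * e := by
    unfold ed
    rw [he, Complex.real_smul, Complex.real_smul]
    push_cast
    ring
  have edj : ed p j s = ((1 - s : ℝ) : ℂ) * p j + (s : ℂ) * p (j + 1) := by
    unfold ed
    rw [Complex.real_smul, Complex.real_smul]
  have hX : dt e (x - ed p i t) = dt e (x - p i) := by
    rw [edi]
    simp only [dt, Complex.sub_re, Complex.sub_im, Complex.add_re, Complex.add_im,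
      Complex.mul_re, Complex.mul_im, Complex.ofReal_re, Complex.ofReal_im]
    ring
  have hY : dt e (ed p j s - ed p i t) =
      (1 - s) * dt e (p j - p i) + s * dt e (p (j + 1) - p i) := by
    rw [edi, edj]
    simp only [dt, Complex.sub_re, Complex.sub_im, Complex.add_re, Complex.add_im,
      Complex.mul_re, Complex.mul_im, Complex.ofReal_re, Complex.ofReal_im]
    ring
  have hνn : ∀ z : ℂ, z.re * (-e.im / ‖e‖) + z.im * (e.re / ‖e‖) = dt e z / ‖e‖ := by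
    intro z
    unfold dt
    field_simp
    ring
  have key := gapv (X := x - ed p i t) (Y := ed p j s - ed p i t)
    (ν := ⟨-e.im / ‖e‖, e.re / ‖e‖⟩) (r := ρ / (2 * R)) (R := R) (by positivity) hR
    (by
      show (-e.im / ‖e‖) ^ 2 + (e.re / ‖e‖) ^ 2 ≤ 1
      rw [div_pow, div_pow, ← add_div, hEs, neg_sq, add_comm (e.im ^ 2)]
      exact div_self_le_one _)
    (by
      show ρ / (2 * R) ≤ _ * (-e.im / ‖e‖) + _ * (e.re / ‖e‖)
      rw [hνn, hX]
      have h3 : ρ ≤ dt e (x - p i) := hx i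
      exact (div_le_div_of_nonneg_left hρ.le hE hE2).trans
        (div_le_div_of_nonneg_right h3 hE.le))
    (by
      show 0 ≤ _ * (-e.im / ‖e‖) + _ * (e.re / ‖e‖)
      rw [hνn, hY]
      exact div_nonneg (add_nonneg (mul_nonneg (sub_nonneg.2 hs.2) (hk j))
        (mul_nonneg hs.1 (hk (j + 1)))) hE.le)
    ((norm_sub_le _ _).trans (by linarith [hed i t ht]))
    ((norm_sub_le _ _).trans (by linarith [hed i t ht, hed j s hs]))
  have e1 : x - ed p i t - (ed p j s - ed p i t) = x - ed p j s := by ring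
  have e2 : (ρ / (2 * R)) ^ 2 / (16 * R ^ 2) = ρ ^ 2 / (64 * R ^ 4) := by
    field_simp
    ring
  rw [e1, e2, norm_sub_rev (ed p j s)] at key
  rw [dist_eq_norm, dist_eq_norm, dist_eq_norm]
  exact key
-- END row gap

-- BEGIN row lipC
private theorem lipC_dt (a b : ℂ) : dt a b ≤ ‖a‖ * ‖b‖ := by
  have h1 : dt a b ≤ |dt a b| := le_abs_self _
  refine h1.trans ?_
  rw [← Real.sqrt_sq (mul_nonneg (norm_nonneg a) (norm_nonneg b))]
  apply Real.abs_le_sqrt
  rw [mul_pow, Complex.sq_norm, Complex.sq_norm, Complex.normSq_apply, Complex.normSq_apply]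
  unfold dt
  nlinarith [sq_nonneg (a.re * b.re + a.im * b.im)]

private theorem lipC_ed {f : ZMod n → ℂ} {ε : ℝ} (hf : ∀ i, ‖f i‖ ≤ ε) (i : ZMod n) {t : ℝ}
    (ht : t ∈ Icc (0 : ℝ) 1) : ‖ed f i t‖ ≤ ε := by
  unfold ed
  refine (norm_add_le _ _).trans ?_
  rw [norm_smul, norm_smul, Real.norm_of_nonneg (by linarith [ht.2] : (0 : ℝ) ≤ 1 - t),
    Real.norm_of_nonneg ht.1]
  nlinarith [hf i, hf (i + 1), ht.1, ht.2, mul_le_mul_of_nonneg_left (hf i)
    (by linarith [ht.2] : (0 : ℝ) ≤ 1 - t), mul_le_mul_of_nonneg_left (hf (i + 1)) ht.1]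

/-- Edges without a common vertex: dt (p (i+1) - p i) (ed p j s - ed p i t) ≥ m' > 0 (the minimum of the values at
p j and p (j+1)), and |dt e z| ≤ ‖e‖ ‖z‖. ‖ed f i t - ed f j s‖ ≤ 2 ε. C = 2 ‖e‖ / m'. -/
theorem lipC (hp : ConvexPolygon p) (i j : ZMod n) (h1 : j ≠ i) (h2 : j ≠ i + 1) (h3 : j + 1 ≠ i) :
    ∃ C : ℝ, 0 ≤ C ∧ ∀ ε : ℝ, 0 ≤ ε → ∀ f : ZMod n → ℂ, (∀ i, ‖f i‖ ≤ ε) →
      ∀ t ∈ Icc (0 : ℝ) 1, ∀ s ∈ Icc (0 : ℝ) 1,
        ‖ed f i t - ed f j s‖ ≤ C * ε * ‖ed p i t - ed p j s‖ := by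
  have a1 := hp i j h1 h2
  have a2 : 0 < dt (p (i + 1) - p i) (p (j + 1) - p i) :=
    hp i (j + 1) h3 (fun h => h1 (add_right_cancel h))
  obtain ⟨m', hm'⟩ : ∃ m', m' = min (dt (p (i + 1) - p i) (p j - p i))
    (dt (p (i + 1) - p i) (p (j + 1) - p i)) := ⟨_, rfl⟩
  have hm0 : 0 < m' := by rw [hm']; exact lt_min a1 a2
  have b1 : m' ≤ dt (p (i + 1) - p i) (p j - p i) := by rw [hm']; exact min_le_left _ _
  have b2 : m' ≤ dt (p (i + 1) - p i) (p (j + 1) - p i) := by rw [hm']; exact min_le_right _ _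
  refine ⟨2 * ‖p (i + 1) - p i‖ / m', by positivity, ?_⟩
  intro ε hε f hf t ht s hs
  have c1 : ‖ed f i t - ed f j s‖ ≤ 2 * ε := by
    refine (norm_sub_le _ _).trans ?_
    linarith [lipC_ed hf i ht, lipC_ed hf j hs]
  have c2 : dt (p (i + 1) - p i) (ed p j s - ed p i t) =
      (1 - s) * dt (p (i + 1) - p i) (p j - p i) +
      s * dt (p (i + 1) - p i) (p (j + 1) - p i) := by
    unfold dt ed
    simp only [Complex.sub_re, Complex.sub_im, Complex.add_re, Complex.add_im, Complex.smul_re,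
      Complex.smul_im, smul_eq_mul]
    ring
  have c3 : m' ≤ dt (p (i + 1) - p i) (ed p j s - ed p i t) := by
    rw [c2]
    nlinarith [mul_le_mul_of_nonneg_left b1 (by linarith [hs.2] : (0 : ℝ) ≤ 1 - s),
      mul_le_mul_of_nonneg_left b2 hs.1]
  have c4 := c3.trans (lipC_dt _ _)
  rw [norm_sub_rev (ed p j s)] at c4
  refine c1.trans ?_
  rw [div_mul_eq_mul_div, div_mul_eq_mul_div, le_div_iff₀ hm0]
  nlinarith [mul_le_mul_of_nonneg_left c4 hε]
-- END row lipC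

-- BEGIN row lipB
private theorem lipB_dt (a b : ℂ) : |dt a b| ≤ ‖a‖ * ‖b‖ := by
  have h : dt a b = ((starRingEnd ℂ) a * b).im := by
    simp only [dt, Complex.mul_im, Complex.conj_re, Complex.conj_im]
    ring
  rw [h]
  refine (Complex.abs_im_le_norm _).trans (le_of_eq ?_)
  rw [norm_mul, Complex.norm_conj]

private theorem lipB_dts (a b : ℂ) (x y : ℝ) (c : ℂ) :
    dt (x • a - y • b) c = x * dt a c - y * dt b c := by
  simp only [dt, Complex.sub_re, Complex.sub_im, Complex.real_smul, Complex.mul_re,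
    Complex.mul_im, Complex.ofReal_re, Complex.ofReal_im]
  ring

private theorem lipB_ne (hn : 3 ≤ n) (i : ZMod n) : i ≠ i + 1 ∧ i ≠ i + 1 + 1 := by
  constructor
  · intro h
    have h2 : ((1 : ℕ) : ZMod n) = 0 := by
      push_cast
      linear_combination (-1) * h
    rw [ZMod.natCast_eq_zero_iff] at h2
    have := Nat.le_of_dvd one_pos h2
    omega
  · intro h
    have h2 : ((2 : ℕ) : ZMod n) = 0 := by
      push_cast
      linear_combination (-1) * h
    rw [ZMod.natCast_eq_zero_iff] at h2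
    have := Nat.le_of_dvd two_pos h2
    omega

/-- Adjacent edges, vertex q = p (i+1): ed p i t - ed p (i+1) s = (1-t) u - s v, u = p i - q, v = p (i+2) - q,
dt u v ≠ 0 (convexity, i + 2 ≠ i, i + 1 as 3 ≤ n). |dt ((1-t) u - s v) v| = (1-t) |dt u v| ≤ ‖..‖ ‖v‖ and likewise s |dt u v| ≤
‖..‖ ‖u‖. ‖ed f i t - ed f (i+1) s‖ ≤ 2 ε ((1-t) + s). -/
theorem lipB (hn : 3 ≤ n) (hp : ConvexPolygon p) (i : ZMod n) :
    ∃ C : ℝ, 0 ≤ C ∧ ∀ ε : ℝ, 0 ≤ ε → ∀ f : ZMod n → ℂ, (∀ i, ‖f i‖ ≤ ε) →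
      ∀ t ∈ Icc (0 : ℝ) 1, ∀ s ∈ Icc (0 : ℝ) 1,
        ‖ed f i t - ed f (i + 1) s‖ ≤ C * ε * ‖ed p i t - ed p (i + 1) s‖ := by
  obtain ⟨h1, h2⟩ := lipB_ne hn i
  have hD := hp (i + 1) i h1 h2
  obtain ⟨u, hu⟩ : ∃ u, u = p i - p (i + 1) := ⟨_, rfl⟩
  obtain ⟨v, hv⟩ : ∃ v, v = p (i + 1 + 1) - p (i + 1) := ⟨_, rfl⟩
  rw [← hu, ← hv] at hD
  obtain ⟨D, hDd⟩ : ∃ D, D = dt v u := ⟨_, rfl⟩
  rw [← hDd] at hD
  refine ⟨2 * (‖u‖ + ‖v‖) / D, by positivity, fun ε hε f hf t ht s hs => ?_⟩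
  obtain ⟨w, hw⟩ : ∃ w, w = ed p i t - ed p (i + 1) s := ⟨_, rfl⟩
  rw [← hw]
  have ht1 : 0 ≤ 1 - t := by linarith [ht.2]
  have hs0 : 0 ≤ s := hs.1
  have hw2 : w = (1 - t) • u - s • v := by
    rw [hw, hu, hv]
    unfold ed
    module
  have a1 : (1 - t) * D ≤ ‖w‖ * ‖v‖ := by
    have e : dt w v = -((1 - t) * D) := by
      rw [hw2, lipB_dts, hDd]
      unfold dt
      ring
    have h := lipB_dt w v
    rw [e, abs_neg, abs_of_nonneg (mul_nonneg ht1 hD.le)] at h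
    exact h
  have a2 : s * D ≤ ‖w‖ * ‖u‖ := by
    have e : dt w u = -(s * D) := by
      rw [hw2, lipB_dts, hDd]
      unfold dt
      ring
    have h := lipB_dt w u
    rw [e, abs_neg, abs_of_nonneg (mul_nonneg hs0 hD.le)] at h
    exact h
  have a3 : ‖ed f i t - ed f (i + 1) s‖ ≤ 2 * ε * ((1 - t) + s) := by
    have e : ed f i t - ed f (i + 1) s =
        (1 - t) • (f i - f (i + 1)) - s • (f (i + 1 + 1) - f (i + 1)) := by
      unfold ed
      module
    rw [e]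
    refine (norm_sub_le _ _).trans ?_
    rw [norm_smul, norm_smul, Real.norm_of_nonneg ht1, Real.norm_of_nonneg hs0]
    have b1 : ‖f i - f (i + 1)‖ ≤ 2 * ε :=
      (norm_sub_le _ _).trans (by linarith [hf i, hf (i + 1)])
    have b2 : ‖f (i + 1 + 1) - f (i + 1)‖ ≤ 2 * ε :=
      (norm_sub_le _ _).trans (by linarith [hf (i + 1 + 1), hf (i + 1)])
    have c1 := mul_le_mul_of_nonneg_left b1 ht1
    have c2 := mul_le_mul_of_nonneg_left b2 hs0
    linarith
  refine a3.trans ?_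
  have a4 : ((1 - t) + s) * D ≤ ‖w‖ * (‖u‖ + ‖v‖) := by linarith
  have e5 : 2 * (‖u‖ + ‖v‖) / D * ε * ‖w‖ = 2 * ε * (‖w‖ * (‖u‖ + ‖v‖) / D) := by ring
  rw [e5]
  refine mul_le_mul_of_nonneg_left ?_ (by positivity)
  rw [le_div_iff₀ hD]
  exact a4
-- END row lipB

-- BEGIN row lipA
/-- One edge: ed p i t - ed p i s = (t - s) (p (i+1) - p i), p (i+1) ≠ p i (convexity with j = i + 2, as 3 ≤ n). -/
theorem lipA (hn : 3 ≤ n) (hp : ConvexPolygon p) (i : ZMod n) :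
    ∃ C : ℝ, 0 ≤ C ∧ ∀ ε : ℝ, 0 ≤ ε → ∀ f : ZMod n → ℂ, (∀ i, ‖f i‖ ≤ ε) →
      ∀ t ∈ Icc (0 : ℝ) 1, ∀ s ∈ Icc (0 : ℝ) 1,
        ‖ed f i t - ed f i s‖ ≤ C * ε * ‖ed p i t - ed p i s‖ := by
  have h2 : (2 : ZMod n) ≠ 0 := by
    intro h
    have h' : ((2 : ℕ) : ZMod n) = 0 := by exact_mod_cast h
    rw [ZMod.natCast_eq_zero_iff] at h'
    exact absurd (Nat.le_of_dvd (by norm_num) h') (by omega)
  have h1 : (1 : ZMod n) ≠ 0 := by
    intro h
    have h' : ((1 : ℕ) : ZMod n) = 0 := by exact_mod_cast h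
    rw [ZMod.natCast_eq_zero_iff] at h'
    exact absurd (Nat.le_of_dvd (by norm_num) h') (by omega)
  have he : p (i + 1) - p i ≠ 0 := by
    intro h
    have h3 := hp i (i + 2) (fun h => h2 (by simpa using h)) (fun h => h1 (by
      have h5 := add_left_cancel h
      have h6 : (2 : ZMod n) - 1 = 0 := by rw [h5, sub_self]
      linear_combination h6))
    rw [h] at h3
    simp [dt] at h3
  have hN : 0 < ‖p (i + 1) - p i‖ := norm_pos_iff.2 he
  refine ⟨2 / ‖p (i + 1) - p i‖, by positivity, fun ε hε f hf t _ s _ => ?_⟩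
  have e1 : ∀ g : ZMod n → ℂ, ed g i t - ed g i s = (t - s) • (g (i + 1) - g i) := by
    intro g
    unfold ed
    module
  rw [e1, e1, norm_smul, norm_smul, Real.norm_eq_abs]
  have h4 : ‖f (i + 1) - f i‖ ≤ 2 * ε :=
    (norm_sub_le _ _).trans (by linarith [hf (i + 1), hf i])
  calc |t - s| * ‖f (i + 1) - f i‖ ≤ |t - s| * (2 * ε) :=
        mul_le_mul_of_nonneg_left h4 (abs_nonneg _)
    _ = 2 / ‖p (i + 1) - p i‖ * ε * (|t - s| * ‖p (i + 1) - p i‖) := by field_simp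
-- END row lipA

-- BEGIN row lip
private theorem lip_pair (hn : 3 ≤ n) (hp : ConvexPolygon p) (i j : ZMod n) :
    ∃ C : ℝ, 0 ≤ C ∧ ∀ ε : ℝ, 0 ≤ ε → ∀ f : ZMod n → ℂ, (∀ i, ‖f i‖ ≤ ε) →
      ∀ t ∈ Icc (0 : ℝ) 1, ∀ s ∈ Icc (0 : ℝ) 1,
        ‖ed f i t - ed f j s‖ ≤ C * ε * ‖ed p i t - ed p j s‖ := by
  by_cases h1 : j = i
  · subst h1
    exact lipA hn hp j
  · by_cases h2 : j = i + 1
    · subst h2
      exact lipB hn hp i
    · by_cases h3 : j + 1 = i
      · subst h3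
        obtain ⟨C, hC, h⟩ := lipB hn hp j
        refine ⟨C, hC, fun ε hε f hf t ht s hs => ?_⟩
        rw [norm_sub_rev, norm_sub_rev (ed p (j + 1) t)]
        exact h ε hε f hf s hs t ht
      · exact lipC hp i j h1 h2 h3

/-- For every pair i, j one of `lipA` (j = i), `lipB` (j = i + 1, or i = j + 1 with the roles exchanged), `lipC`. The
maximum of the finitely many constants (ZMod n is finite, n ≠ 0). -/
theorem lip (hn : 3 ≤ n) (hp : ConvexPolygon p) :
    ∃ C : ℝ, 0 < C ∧ ∀ ε : ℝ, 0 ≤ ε → ∀ f : ZMod n → ℂ, (∀ i, ‖f i‖ ≤ ε) →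
      ∀ i j : ZMod n, ∀ t ∈ Icc (0 : ℝ) 1, ∀ s ∈ Icc (0 : ℝ) 1,
        ‖ed f i t - ed f j s‖ ≤ C * ε * ‖ed p i t - ed p j s‖ := by
  have : NeZero n := ⟨by omega⟩
  choose C hC0 hC using lip_pair hn hp
  have h0 : 0 ≤ ∑ i, ∑ j, C i j := Finset.sum_nonneg fun i _ => Finset.sum_nonneg fun j _ => hC0 i j
  refine ⟨1 + ∑ i, ∑ j, C i j, by linarith, fun ε hε f hf i j t ht s hs => ?_⟩
  have h1 : C i j ≤ ∑ j, C i j :=
    Finset.single_le_sum (f := fun j => C i j) (fun j _ => hC0 i j) (Finset.mem_univ j)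
  have h2 : ∑ j, C i j ≤ ∑ i, ∑ j, C i j :=
    Finset.single_le_sum (f := fun i => ∑ j, C i j)
      (fun i _ => Finset.sum_nonneg fun j _ => hC0 i j) (Finset.mem_univ i)
  refine (hC i j ε hε f hf t ht s hs).trans ?_
  refine mul_le_mul_of_nonneg_right ?_ (norm_nonneg _)
  refine mul_le_mul_of_nonneg_right ?_ hε
  linarith
-- END row lip

-- BEGIN row iso
private theorem iso_sq (a b u v : ℂ) (t s : ℝ) :
    ‖((1 - t) • a + t • b) - ((1 - s) • u + s • v)‖ ^ 2 =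
      (1 - t) * (1 - s) * dist a u ^ 2 + (1 - t) * s * dist a v ^ 2 +
        t * (1 - s) * dist b u ^ 2 + t * s * dist b v ^ 2 -
        (1 - t) * t * dist a b ^ 2 - (1 - s) * s * dist u v ^ 2 := by
  simp only [dist_eq_norm, Complex.sq_norm, Complex.normSq_apply, Complex.sub_re, Complex.sub_im,
    Complex.add_re, Complex.add_im, Complex.real_smul, Complex.mul_re, Complex.mul_im,
    Complex.ofReal_re, Complex.ofReal_im]
  ring

/-- The square of the norm of (1-t) P + t Q - (1-s) U - s V (weights with sum 0) is a combination of the squares of the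
six distances: it is minus the sum over pairs of (weight)(weight)(distance)^2. -/
theorem iso (hs : ∀ i j, dist (p (τ i)) (p (τ j)) = dist (p i) (p j)) (i j : ZMod n) (t s : ℝ) :
    ‖ed (p ∘ τ) i t - ed (p ∘ τ) j s‖ = ‖ed p i t - ed p j s‖ := by
  have h : ‖ed (p ∘ τ) i t - ed (p ∘ τ) j s‖ ^ 2 = ‖ed p i t - ed p j s‖ ^ 2 := by
    simp only [ed, Function.comp_apply]
    rw [iso_sq, iso_sq, hs, hs, hs, hs, hs, hs]
  exact (sq_eq_sq₀ (norm_nonneg _) (norm_nonneg _)).1 h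
-- END row iso

-- BEGIN row seam
private theorem seam_add (u v : ZMod n → ℂ) (i : ZMod n) (t : ℝ) :
    ed (fun k => u k + v k) i t = ed u i t + ed v i t := by
  simp only [ed, smul_add]
  abel

/-- C from `lip` for p₀, ε with 2 C ε ≤ δ and C ε ≤ 1/2. f = p - p₀: ed p = ed p₀ + ed f, so ‖ed p i t - ed p j s‖ ≤
(1 + C ε) D, D = ‖ed p₀ i t - ed p₀ j s‖; with f ∘ τ (norms ≤ ε as well) and `iso`: ‖ed (p ∘ τ) i t - ed (p ∘ τ) j s‖
≥ (1 - C ε) D ≥ (1 - δ) (1 + C ε) D. -/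
theorem seam (hn : 3 ≤ n) (hp : ConvexPolygon p₀)
    (hs : ∀ i j, dist (p₀ (τ i)) (p₀ (τ j)) = dist (p₀ i) (p₀ j)) {δ : ℝ} (hδ : 0 < δ)
    (hδ1 : δ ≤ 1) :
    ∃ ε : ℝ, 0 < ε ∧ ∀ p : ZMod n → ℂ, (∀ i, dist (p i) (p₀ i) < ε) →
      ∀ i j : ZMod n, ∀ t ∈ Icc (0 : ℝ) 1, ∀ s ∈ Icc (0 : ℝ) 1,
        (1 - δ) * dist (ed p i t) (ed p j s) ≤ dist (ed (p ∘ τ) i t) (ed (p ∘ τ) j s) := by
  obtain ⟨C, hC, hlip⟩ := lip hn hp
  refine ⟨δ / (2 * C), by positivity, ?_⟩
  intro p hpp i j t ht s hs'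
  have hε : (0 : ℝ) ≤ δ / (2 * C) := by positivity
  have hCε : C * (δ / (2 * C)) = δ / 2 := by field_simp
  have h1 := hlip (δ / (2 * C)) hε (fun k => p k - p₀ k)
    (fun k => by rw [← dist_eq_norm]; exact (hpp k).le) i j t ht s hs'
  have h2 := hlip (δ / (2 * C)) hε (fun k => p (τ k) - p₀ (τ k))
    (fun k => by rw [← dist_eq_norm]; exact (hpp (τ k)).le) i j t ht s hs'
  rw [hCε] at h1 h2
  have e1 : p = fun k => p₀ k + (p k - p₀ k) := by
    funext k
    ring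
  have e2 : p ∘ τ = fun k => (p₀ ∘ τ) k + (p (τ k) - p₀ (τ k)) := by
    funext k
    simp only [Function.comp_apply]
    ring
  have a1 : ∀ k r, ed p k r = ed p₀ k r + ed (fun k => p k - p₀ k) k r := fun k r => by
    conv_lhs => rw [e1]
    exact seam_add _ _ k r
  have a2 : ∀ k r, ed (p ∘ τ) k r = ed (p₀ ∘ τ) k r + ed (fun k => p (τ k) - p₀ (τ k)) k r :=
    fun k r => by
      conv_lhs => rw [e2]
      exact seam_add _ _ k r
  have hi := iso (p := p₀) (τ := τ) hs i j t s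
  rw [dist_eq_norm, dist_eq_norm, a1 i t, a1 j s, a2 i t, a2 j s]
  have b1 : ed p₀ i t + ed (fun k => p k - p₀ k) i t - (ed p₀ j s + ed (fun k => p k - p₀ k) j s) =
      (ed p₀ i t - ed p₀ j s) + (ed (fun k => p k - p₀ k) i t - ed (fun k => p k - p₀ k) j s) := by
    ring
  have b2 : ed (p₀ ∘ τ) i t + ed (fun k => p (τ k) - p₀ (τ k)) i t -
      (ed (p₀ ∘ τ) j s + ed (fun k => p (τ k) - p₀ (τ k)) j s) =
      (ed (p₀ ∘ τ) i t - ed (p₀ ∘ τ) j s) -
      -(ed (fun k => p (τ k) - p₀ (τ k)) i t - ed (fun k => p (τ k) - p₀ (τ k)) j s) := by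
    ring
  rw [b1, b2]
  have c1 := norm_add_le (ed p₀ i t - ed p₀ j s)
    (ed (fun k => p k - p₀ k) i t - ed (fun k => p k - p₀ k) j s)
  have c2 := norm_sub_norm_le (ed (p₀ ∘ τ) i t - ed (p₀ ∘ τ) j s)
    (-(ed (fun k => p (τ k) - p₀ (τ k)) i t - ed (fun k => p (τ k) - p₀ (τ k)) j s))
  rw [norm_neg, hi] at c2
  have hD := norm_nonneg (ed p₀ i t - ed p₀ j s)
  have c3 : (1 - δ) * ‖(ed p₀ i t - ed p₀ j s) +
      (ed (fun k => p k - p₀ k) i t - ed (fun k => p k - p₀ k) j s)‖ ≤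
      (1 - δ) * ((1 + δ / 2) * ‖ed p₀ i t - ed p₀ j s‖) :=
    mul_le_mul_of_nonneg_left (by linarith) (by linarith)
  have c4 : (1 - δ) * ((1 + δ / 2) * ‖ed p₀ i t - ed p₀ j s‖) ≤
      (1 - δ / 2) * ‖ed p₀ i t - ed p₀ j s‖ := by
    nlinarith [mul_nonneg (sq_nonneg δ) hD]
  linarith
-- END row seam

-- BEGIN row pathI
/-- Induction on l. Head (true, z), next (true, z'): triangle inequality. (true, ed p i t) to (false, ed (p ∘ τ) i t): the
second half with this i, t. (false, w) to (false, w'): lam ‖B - w'‖ ≤ lam ‖B - w‖ + lam ‖w - w'‖. (false, B(j,s)) to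
(true, ed p j s): key. One point: it is (true, y). -/
theorem pathI {x y : ℂ} {lam : ℝ} (h0 : 0 ≤ lam) (h1 : lam ≤ 1)
    (key : ∀ i j : ZMod n, ∀ t ∈ Icc (0 : ℝ) 1, ∀ s ∈ Icc (0 : ℝ) 1,
      dist x (ed p j s) ≤ dist x (ed p i t) + lam * dist (ed (p ∘ τ) i t) (ed (p ∘ τ) j s))
    (l : List (Bool × ℂ)) (hl : l.IsChain (Step p τ)) (he : l.getLast? = some (true, y)) :
    (∀ z, l.head? = some (true, z) → dist x y + (1 - lam) * lenBack l ≤ dist x z + len l) ∧
    (∀ w, l.head? = some (false, w) → ∀ i : ZMod n, ∀ t ∈ Icc (0 : ℝ) 1,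
      dist x y + (1 - lam) * lenBack l ≤
        dist x (ed p i t) + lam * dist (ed (p ∘ τ) i t) w + len l) := by
  induction l with
  | nil => simp at he
  | cons u l ih =>
    cases l with
    | nil =>
      have hu : u = (true, y) := by simpa using he
      subst hu
      refine ⟨fun z hz => ?_, fun w hw => ?_⟩
      · have hz' : y = z := by simpa using hz
        subst hz'
        simp [len, lenBack]
      · exact absurd hw (by simp)
    | cons v l =>
      rw [List.isChain_cons_cons] at hl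
      have he' : (v :: l).getLast? = some (true, y) := by simpa using he
      obtain ⟨hA, hB⟩ := ih hl.2 he'
      obtain ⟨hst, -⟩ := hl
      obtain ⟨ub, uz⟩ := u
      obtain ⟨vb, vz⟩ := v
      have e1 : len ((ub, uz) :: (vb, vz) :: l) =
        (if ub = vb then dist uz vz else 0) + len ((vb, vz) :: l) := rfl
      have e2 : lenBack ((ub, uz) :: (vb, vz) :: l) =
        (if ub = false ∧ vb = false then dist uz vz else 0) + lenBack ((vb, vz) :: l) := rfl
      rw [e1, e2]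
      refine ⟨fun z hz => ?_, fun w hw i t ht => ?_⟩
      · have hz' : ub = true ∧ uz = z := by simpa using hz
        obtain ⟨rfl, rfl⟩ := hz'
        rcases hst with h | ⟨i, t, ht, h3, h4⟩ | ⟨i, t, ht, h3, h4⟩
        · have hv : vb = true := h.symm
          subst hv
          have h1 := hA vz rfl
          have h2 := dist_triangle x uz vz
          rw [if_pos rfl, if_neg (by simp), zero_add]
          linarith
        · have h5 : uz = ed p i t := congrArg Prod.snd h3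
          have h6 : vb = false := congrArg Prod.fst h4
          have h7 : vz = ed (p ∘ τ) i t := congrArg Prod.snd h4
          subst h6
          have h1 := hB vz rfl i t ht
          rw [← h7, dist_self, mul_zero, add_zero, ← h5] at h1
          rw [if_neg (by simp), if_neg (by simp), zero_add, zero_add]
          exact h1
        · have h5 : true = false := congrArg Prod.fst h4
          exact absurd h5 (by simp)
      · have hw' : ub = false ∧ uz = w := by simpa using hw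
        obtain ⟨rfl, rfl⟩ := hw'
        rcases hst with h | ⟨j, s, hs, h3, h4⟩ | ⟨j, s, hs, h3, h4⟩
        · have hv : vb = false := h.symm
          subst hv
          have h1 := hB vz rfl i t ht
          have h2 := mul_le_mul_of_nonneg_left (dist_triangle (ed (p ∘ τ) i t) uz vz) h0
          rw [if_pos rfl, if_pos ⟨rfl, rfl⟩]
          nlinarith
        · have h5 : false = true := congrArg Prod.fst h3
          exact absurd h5 (by simp)
        · have h5 : vz = ed p j s := congrArg Prod.snd h3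
          have h6 : vb = true := congrArg Prod.fst h3
          have h7 : uz = ed (p ∘ τ) j s := congrArg Prod.snd h4
          subst h6
          have h1 := hA vz rfl
          have h2 := key i j t ht s hs
          rw [← h7, ← h5] at h2
          rw [if_neg (by simp), if_neg (by simp), zero_add, zero_add]
          linarith
-- END row pathI

-- BEGIN row opn
/-- Finitely many strict inequalities which are continuous in (p, x). (For instance: the set of the (p, x) in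
(ZMod n → ℂ) × ℂ with these strict inequalities is open, ρ half the minimum at (p₀, x₀), R = norm bound + 1.) -/
theorem opn (hn : 3 ≤ n) (hp : ConvexPolygon p₀) {x₀ : ℂ}
    (hx : ∀ i, 0 < dt (p₀ (i + 1) - p₀ i) (x₀ - p₀ i)) :
    ∃ ε ρ R : ℝ, 0 < ε ∧ 0 < ρ ∧ 0 < R ∧ ∀ p : ZMod n → ℂ, (∀ i, dist (p i) (p₀ i) < ε) →
      ConvexPolygon p ∧ (∀ i, ‖p i‖ ≤ R) ∧ ∀ x : ℂ, dist x x₀ < ε → ‖x‖ ≤ R ∧
        ∀ i, ρ ≤ dt (p (i + 1) - p i) (x - p i) := by
  have : NeZero n := ⟨by omega⟩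
  obtain ⟨ρ, hρ1, hρ0⟩ : ∃ ρ : ℝ, (∀ i, ρ < dt (p₀ (i + 1) - p₀ i) (x₀ - p₀ i)) ∧ 0 < ρ := by
    have h1 : ∀ᶠ ρ : ℝ in nhdsWithin 0 (Ioi 0),
        ∀ i, ρ < dt (p₀ (i + 1) - p₀ i) (x₀ - p₀ i) :=
      Filter.eventually_all.2 fun i =>
        (eventually_lt_nhds (hx i)).filter_mono nhdsWithin_le_nhds
    have h2 : ∀ᶠ ρ : ℝ in nhdsWithin 0 (Ioi 0), (0 : ℝ) < ρ := self_mem_nhdsWithin
    exact (h1.and h2).exists
  obtain ⟨R, hR1, hR2, hR0⟩ : ∃ R : ℝ, (∀ i, ‖p₀ i‖ < R) ∧ ‖x₀‖ < R ∧ 0 < R :=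
    ((Filter.eventually_all.2 fun i => Filter.eventually_gt_atTop ‖p₀ i‖).and
      ((Filter.eventually_gt_atTop ‖x₀‖).and (Filter.eventually_gt_atTop (0 : ℝ)))).exists
  have c1 : ∀ i j : ZMod n, Continuous fun q : (ZMod n → ℂ) × ℂ =>
      dt (q.1 (i + 1) - q.1 i) (q.1 j - q.1 i) := by
    intro i j
    unfold dt
    fun_prop
  have c2 : ∀ i : ZMod n, Continuous fun q : (ZMod n → ℂ) × ℂ =>
      dt (q.1 (i + 1) - q.1 i) (q.2 - q.1 i) := by
    intro i
    unfold dt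
    fun_prop
  have c3 : ∀ i : ZMod n, Continuous fun q : (ZMod n → ℂ) × ℂ => ‖q.1 i‖ := by
    intro i
    fun_prop
  have c4 : Continuous fun q : (ZMod n → ℂ) × ℂ => ‖q.2‖ := by fun_prop
  have e1 : ∀ᶠ q : (ZMod n → ℂ) × ℂ in nhds (p₀, x₀), ∀ i j, j ≠ i → j ≠ i + 1 →
      0 < dt (q.1 (i + 1) - q.1 i) (q.1 j - q.1 i) := by
    refine Filter.eventually_all.2 fun i => Filter.eventually_all.2 fun j => ?_
    by_cases h : j ≠ i ∧ j ≠ i + 1
    · filter_upwards [(c1 i j).continuousAt.eventually (lt_mem_nhds (hp i j h.1 h.2))] with q hq _ _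
      exact hq
    · exact Filter.Eventually.of_forall fun q h1 h2 => absurd ⟨h1, h2⟩ h
  have e2 : ∀ᶠ q : (ZMod n → ℂ) × ℂ in nhds (p₀, x₀), ∀ i, ‖q.1 i‖ < R :=
    Filter.eventually_all.2 fun i => (c3 i).continuousAt.eventually (gt_mem_nhds (hR1 i))
  have e3 : ∀ᶠ q : (ZMod n → ℂ) × ℂ in nhds (p₀, x₀), ‖q.2‖ < R :=
    c4.continuousAt.eventually (gt_mem_nhds hR2)
  have e4 : ∀ᶠ q : (ZMod n → ℂ) × ℂ in nhds (p₀, x₀),
      ∀ i, ρ < dt (q.1 (i + 1) - q.1 i) (q.2 - q.1 i) :=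
    Filter.eventually_all.2 fun i => (c2 i).continuousAt.eventually (lt_mem_nhds (hρ1 i))
  obtain ⟨ε, hε, H⟩ := Metric.eventually_nhds_iff.1 (e1.and (e2.and (e3.and e4)))
  refine ⟨ε, ρ, R, hε, hρ0, hR0, fun p hpp => ?_⟩
  have hd : ∀ x : ℂ, dist x x₀ < ε → dist ((p, x) : (ZMod n → ℂ) × ℂ) (p₀, x₀) < ε := by
    intro x hxx
    rw [Prod.dist_eq]
    exact max_lt ((dist_pi_lt_iff hε).2 hpp) hxx
  have H0 := H (hd x₀ (by rw [dist_self]; exact hε))
  refine ⟨fun i j h1 h2 => H0.1 i j h1 h2, fun i => (H0.2.1 i).le, fun x hxx => ?_⟩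
  have H1 := H (hd x hxx)
  exact ⟨H1.2.2.1.le, fun i => (H1.2.2.2 i).le⟩
-- END row opn

-- BEGIN row int
private theorem int_lin (e z w : ℂ) (a b : ℝ) : dt e (a • z + b • w) = a * dt e z + b * dt e w := by
  simp only [dt, Complex.add_re, Complex.add_im, Complex.real_smul, Complex.mul_re, Complex.mul_im,
    Complex.ofReal_re, Complex.ofReal_im]
  ring

private theorem int_cast (hn : 3 ≤ n) {k : ℕ} (hk : 0 < k) (hk3 : k < 3) : ((k : ℕ) : ZMod n) ≠ 0 := by
  intro h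
  rw [ZMod.natCast_eq_zero_iff] at h
  have := Nat.le_of_dvd hk h
  omega

private theorem int_e (hn : 3 ≤ n) (hp : ConvexPolygon p₀) (i : ZMod n) : p₀ (i + 1) - p₀ i ≠ 0 := by
  intro h
  have h1 : i + 2 ≠ i := by
    intro h
    have h2 : ((2 : ℕ) : ZMod n) = 0 := by
      have h3 : i + 2 = i + 0 := by rw [h, add_zero]
      exact_mod_cast add_left_cancel h3
    exact int_cast hn (by norm_num) (by norm_num) h2
  have h2 : i + 2 ≠ i + 1 := by
    intro h
    have h2 : ((1 : ℕ) : ZMod n) = 0 := by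
      have h3 : (1 : ZMod n) + 1 = 1 + 0 := by
        have h4 : i + (1 + 1) = i + (1 + 0) := by
          rw [add_zero, one_add_one_eq_two]
          exact h
        exact add_left_cancel h4
      exact_mod_cast add_left_cancel h3
    exact int_cast hn (by norm_num) (by norm_num) h2
  have h3 := hp i (i + 2) h1 h2
  rw [h] at h3
  simp [dt] at h3

private theorem int_half (hp : ConvexPolygon p₀) (i : ZMod n) :
    convexHull ℝ (range p₀) ⊆ {z | 0 ≤ dt (p₀ (i + 1) - p₀ i) (z - p₀ i)} := by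
  refine convexHull_min ?_ ?_
  · rintro z ⟨j, rfl⟩
    show 0 ≤ dt (p₀ (i + 1) - p₀ i) (p₀ j - p₀ i)
    by_cases h1 : j = i
    · subst h1
      rw [sub_self]
      simp [dt]
    · by_cases h2 : j = i + 1
      · subst h2
        refine le_of_eq ?_
        unfold dt
        ring
      · exact (hp i j h1 h2).le
  · intro z hz w hw a b ha hb hab
    have h1 : 0 ≤ dt (p₀ (i + 1) - p₀ i) (z - p₀ i) := hz
    have h2 : 0 ≤ dt (p₀ (i + 1) - p₀ i) (w - p₀ i) := hw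
    show 0 ≤ dt (p₀ (i + 1) - p₀ i) (a • z + b • w - p₀ i)
    have h3 : a • z + b • w - p₀ i = a • (z - p₀ i) + b • (w - p₀ i) := by
      have h4 : a • p₀ i + b • p₀ i = p₀ i := by rw [← add_smul, hab, one_smul]
      rw [smul_sub, smul_sub]
      nth_rewrite 1 [← h4]
      abel
    rw [h3, int_lin]
    positivity

/-- All vertices, so the hull, lie in the half plane dt e (z - p₀ i) ≥ 0, e = p₀ (i+1) - p₀ i ≠ 0. If dt e (x₀ - p₀ i) ≤ 0
then a point x₀ - h (-e.im, e.re), h > 0 small, is in the hull with a negative value. -/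
theorem int (hn : 3 ≤ n) (hp : ConvexPolygon p₀) {x₀ : ℂ}
    (hx : x₀ ∈ interior (convexHull ℝ (range p₀))) :
    ∀ i, 0 < dt (p₀ (i + 1) - p₀ i) (x₀ - p₀ i) := by
  intro i
  by_contra hneg
  have hneg' : dt (p₀ (i + 1) - p₀ i) (x₀ - p₀ i) ≤ 0 := not_lt.1 hneg
  have he := int_e hn hp i
  have hhalf := int_half hp i
  generalize hE : p₀ (i + 1) - p₀ i = e at *
  obtain ⟨r, hr, hball⟩ := Metric.isOpen_iff.1 isOpen_interior x₀ hx
  have hn0 : 0 < ‖e‖ := norm_pos_iff.2 he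
  have hnu : ‖Complex.I * e‖ = ‖e‖ := by rw [norm_mul, Complex.norm_I, one_mul]
  have hmem : x₀ + (-(r / (2 * ‖e‖))) • (Complex.I * e) ∈ Metric.ball x₀ r := by
    rw [Metric.mem_ball, dist_eq_norm, add_sub_cancel_left, norm_smul, hnu, Real.norm_eq_abs,
      abs_neg, abs_of_pos (by positivity)]
    have : r / (2 * ‖e‖) * ‖e‖ = r / 2 := by
      field_simp
    rw [this]
    linarith
  have h1 : 0 ≤ dt e (x₀ + (-(r / (2 * ‖e‖))) • (Complex.I * e) - p₀ i) :=
    hhalf (interior_subset (hball hmem))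
  have h2 : dt e (x₀ + (-(r / (2 * ‖e‖))) • (Complex.I * e) - p₀ i) =
      dt e (x₀ - p₀ i) - r / (2 * ‖e‖) * dt e (Complex.I * e) := by
    have h3 : x₀ + (-(r / (2 * ‖e‖))) • (Complex.I * e) - p₀ i =
        (1 : ℝ) • (x₀ - p₀ i) + (-(r / (2 * ‖e‖))) • (Complex.I * e) := by
      rw [one_smul]
      abel
    rw [h3, int_lin]
    ring
  have h4 : dt e (Complex.I * e) = e.re ^ 2 + e.im ^ 2 := by
    simp only [dt, Complex.mul_re, Complex.mul_im, Complex.I_re, Complex.I_im]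
    ring
  have h5 : 0 < e.re ^ 2 + e.im ^ 2 := by
    have h6 : ‖e‖ ^ 2 = e.re ^ 2 + e.im ^ 2 := by
      rw [Complex.sq_norm, Complex.normSq_apply]
      ring
    rw [← h6]
    positivity
  have h7 : 0 < r / (2 * ‖e‖) * (e.re ^ 2 + e.im ^ 2) := by positivity
  rw [h2, h4] at h1
  linarith
-- END row int

-- BEGIN row hul
/-- Ball (x₀, r) in the hull of p₀; ε = r/2 .. r/3. If x is not in the hull of p (closed: the hull of a finite set is
compact) there is a continuous linear functional f with f z < f x for all z in the hull (`geometric_hahn_banach_closed_point`),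
so f (p₀ j) < f x + ‖f‖ ε for all j and so on the whole hull of p₀; but the points x₀ + h of it, ‖h‖ < r, have f (x₀ + h) arbitrarily
near f x₀ + ‖f‖ r ≥ f x - ‖f‖ ε + ‖f‖ r: contradiction if 2 ε < r. -/
theorem hul (hn : 3 ≤ n) {x₀ : ℂ} (hx : x₀ ∈ interior (convexHull ℝ (range p₀))) :
    ∃ ε : ℝ, 0 < ε ∧ ∀ p : ZMod n → ℂ, (∀ i, dist (p i) (p₀ i) < ε) →
      ∀ x : ℂ, dist x x₀ < ε → x ∈ convexHull ℝ (range p) := by
  have : NeZero n := ⟨by omega⟩
  obtain ⟨r, hr, hb⟩ := Metric.isOpen_iff.1 isOpen_interior x₀ hx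
  refine ⟨r / 3, by positivity, ?_⟩
  intro p hp x hxx
  by_contra hxp
  have hcl : IsClosed (convexHull ℝ (range p)) :=
    ((Set.finite_range p).isCompact_convexHull ℝ).isClosed
  obtain ⟨f, u, hf, hu⟩ := geometric_hahn_banach_closed_point (convex_convexHull ℝ _) hcl hxp
  have hpj : ∀ j, f (p j) < u := fun j => hf _ (subset_convexHull ℝ _ (mem_range_self j))
  have hle : ∀ z w : ℂ, f z ≤ f w + ‖f‖ * dist z w := by
    intro z w
    have h1 := f.le_opNorm (z - w)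
    rw [map_sub, Real.norm_eq_abs, ← dist_eq_norm] at h1
    have h2 := le_abs_self (f z - f w)
    linarith
  have hN : 0 < ‖f‖ := by
    rcases (norm_nonneg f).lt_or_eq with h | h
    · exact h
    · have h1 := hle x (p 0)
      rw [← h, zero_mul, add_zero] at h1
      linarith [hpj 0]
  have hull : ∀ z ∈ convexHull ℝ (range p₀), f z ≤ u + ‖f‖ * (r / 3) := by
    intro z hz
    have hc : Convex ℝ {w : ℂ | f w ≤ u + ‖f‖ * (r / 3)} :=
      convex_halfSpace_le f.toLinearMap.isLinear _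
    refine convexHull_min ?_ hc hz
    rintro w ⟨j, rfl⟩
    have h1 := hle (p₀ j) (p j)
    have h2 : ‖f‖ * dist (p₀ j) (p j) ≤ ‖f‖ * (r / 3) := by
      refine mul_le_mul_of_nonneg_left ?_ hN.le
      rw [dist_comm]
      exact (hp j).le
    show f (p₀ j) ≤ u + ‖f‖ * (r / 3)
    linarith [hpj j]
  obtain ⟨y, hy1, hy2⟩ := f.exists_lt_apply_of_lt_opNorm (r := 2 / 3 * ‖f‖) (by linarith)
  obtain ⟨y', hy1', hy2'⟩ : ∃ y' : ℂ, ‖y'‖ < 1 ∧ 2 / 3 * ‖f‖ < f y' := by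
    rw [Real.norm_eq_abs] at hy2
    rcases le_total 0 (f y) with h | h
    · rw [abs_of_nonneg h] at hy2
      exact ⟨y, hy1, hy2⟩
    · rw [abs_of_nonpos h] at hy2
      exact ⟨-y, by rwa [norm_neg], by rwa [map_neg]⟩
  have hz : x₀ + r • y' ∈ convexHull ℝ (range p₀) := by
    refine interior_subset (hb ?_)
    rw [Metric.mem_ball, dist_eq_norm, add_sub_cancel_left, norm_smul, Real.norm_eq_abs,
      abs_of_pos hr]
    nlinarith
  have h3 := hull _ hz
  rw [map_add, map_smul, smul_eq_mul] at h3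
  have h4 := hle x x₀
  have h5 : ‖f‖ * dist x x₀ ≤ ‖f‖ * (r / 3) := mul_le_mul_of_nonneg_left hxx.le hN.le
  have h6 : r * (2 / 3 * ‖f‖) < r * f y' := mul_lt_mul_of_pos_left hy2' hr
  linarith
-- END row hul

-- BEGIN row main
/-- c = ρ^2/(64 R^4) (it is > 0 and < 1; make it at most 1 by enlarging R or by min), δ = c/2, lam = 1 - c/2, η = c/2, so
lam (1 - δ) ≥ 1 - c; key from `gap` and `seam`; `pathI` with z = x. -/
theorem main (hn : 3 ≤ n) (hp : ConvexPolygon p₀)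
    (hs : ∀ i j, dist (p₀ (τ i)) (p₀ (τ j)) = dist (p₀ i) (p₀ j)) {x₀ : ℂ}
    (hx : x₀ ∈ interior (convexHull ℝ (range p₀))) :
    ∃ ε η : ℝ, 0 < ε ∧ 0 < η ∧ ∀ p : ZMod n → ℂ, (∀ i, dist (p i) (p₀ i) < ε) →
      ConvexPolygon p ∧ ∀ x : ℂ, dist x x₀ < ε → x ∈ convexHull ℝ (range p) ∧
        ∀ (y : ℂ) (l : List (Bool × ℂ)), IsPath p τ l → l.head? = some (true, x) →
          l.getLast? = some (true, y) → dist x y + η * lenBack l ≤ len l := by
  obtain ⟨ε1, ρ, R, hε1, hρ, hR, h1⟩ := opn hn hp (int hn hp hx)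
  obtain ⟨ε2, hε2, h2⟩ := hul hn hx
  have hc0 : 0 < ρ ^ 2 / (64 * R ^ 4) := by positivity
  obtain ⟨c, hc⟩ : ∃ c : ℝ, c = min (ρ ^ 2 / (64 * R ^ 4)) 1 := ⟨_, rfl⟩
  have hc1 : 0 < c := by rw [hc]; exact lt_min hc0 one_pos
  have hc2 : c ≤ 1 := by rw [hc]; exact min_le_right _ _
  have hc3 : c ≤ ρ ^ 2 / (64 * R ^ 4) := by rw [hc]; exact min_le_left _ _
  obtain ⟨ε3, hε3, h3⟩ := seam (τ := τ) hn hp hs (δ := c / 2) (by linarith) (by linarith)
  refine ⟨min ε1 (min ε2 ε3), c / 2, lt_min hε1 (lt_min hε2 hε3), by linarith, fun p hpp => ?_⟩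
  obtain ⟨h4, h5, h6⟩ := h1 p fun i => (hpp i).trans_le (min_le_left _ _)
  refine ⟨h4, fun x hxx => ⟨?_, ?_⟩⟩
  · exact h2 p (fun i => (hpp i).trans_le ((min_le_right _ _).trans (min_le_left _ _))) x
      (hxx.trans_le ((min_le_right _ _).trans (min_le_left _ _)))
  · intro y l hl hh he
    obtain ⟨h7, h8⟩ := h6 x (hxx.trans_le (min_le_left _ _))
    have key : ∀ i j : ZMod n, ∀ t ∈ Icc (0 : ℝ) 1, ∀ s ∈ Icc (0 : ℝ) 1,
        dist x (ed p j s) ≤ dist x (ed p i t) +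
          (1 - c / 2) * dist (ed (p ∘ τ) i t) (ed (p ∘ τ) j s) := by
      intro i j t ht s hs'
      have e1 := gap h4 hR hρ h5 h7 h8 i j ht hs'
      have e2 := h3 p (fun i => (hpp i).trans_le ((min_le_right _ _).trans (min_le_right _ _)))
        i j t ht s hs'
      have e3 : 0 ≤ dist (ed p i t) (ed p j s) := dist_nonneg
      have e4 : (1 - ρ ^ 2 / (64 * R ^ 4)) * dist (ed p i t) (ed p j s) ≤
          (1 - c) * dist (ed p i t) (ed p j s) :=
        mul_le_mul_of_nonneg_right (by linarith) e3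
      have e5 : (1 - c / 2) * ((1 - c / 2) * dist (ed p i t) (ed p j s)) ≤
          (1 - c / 2) * dist (ed (p ∘ τ) i t) (ed (p ∘ τ) j s) :=
        mul_le_mul_of_nonneg_left e2 (by linarith)
      have e6 : (1 - c) * dist (ed p i t) (ed p j s) ≤
          (1 - c / 2) * ((1 - c / 2) * dist (ed p i t) (ed p j s)) := by
        rw [← mul_assoc]
        refine mul_le_mul_of_nonneg_right ?_ e3
        nlinarith [sq_nonneg c]
      linarith
    have e := (pathI (x := x) (y := y) (lam := 1 - c / 2) (by linarith) (by linarith) key l hl.2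
      he).1 x hh
    rw [dist_self] at e
    have : 1 - (1 - c / 2) = c / 2 := by ring
    rw [this] at e
    linarith
-- END row main

end Pool.Agent.Gpc
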