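import Pool.Agent.Gpc.Rows

set_option autoImplicit false

namespace Pool.Agent.Gpc

open Set

variable {n : ℕ} {p p₀ : ZMod n → ℂ} {τ : ZMod n → ZMod n}

/-- The point `u` of the surface is on the segment from `x` to `y` in the front. -/
def OnSegment {n : ℕ} (p : ZMod n → ℂ) (τ : ZMod n → ZMod n) (x y : ℂ) (u : Bool × ℂ) : Prop :=
  (∃ z ∈ segment ℝ x y, u = (true, z)) ∨
    ∃ i : ZMod n, ∃ t ∈ Icc (0 : ℝ) 1, ed p i t ∈ segment ℝ x y ∧ u = (false, ed (p ∘ τ) i t)

-- BEGIN row tight
/-- Induction on l; F = ed p, B = ed (p ∘ τ). Second half: w = B(i,t), F(i,t) is in the segment and all u in l are on it.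
(true, z), next (true, z'): dist x z' + len l' ≤ dist x y, so the first half for l'; by `pathI` for l' (lam) it is an equality,
so dist x z + dist z z' = dist x z', z in [x, z'] in [x, y] (`dist_add_dist_eq_iff`, Wbtw). (true, F(i,t)) to (false, B(i,t)):
second half. (false, w), next (false, w'): second half for l' gives w' = B(i,t); with `pathI` for l' the step w w' has length 0
(lam dist B w + dist w B ≤ 0). (false, B(j,s)) to (true, F(j,s)): key (mu) and `pathI` for l' give (lam - mu) dist B(i,t) B(j,s) ≤ 0, so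
B(i,t) = B(j,s) = w, F(i,t) = F(j,s) by inj; first half for l'. `pathI` needs key with lam: it follows from mu ≤ lam. -/
theorem tight {x y : ℂ} {mu lam : ℝ} (h0 : 0 ≤ mu) (h1 : mu < lam) (h2 : lam ≤ 1)
    (key : ∀ i j : ZMod n, ∀ t ∈ Icc (0 : ℝ) 1, ∀ s ∈ Icc (0 : ℝ) 1,
      dist x (ed p j s) ≤ dist x (ed p i t) + mu * dist (ed (p ∘ τ) i t) (ed (p ∘ τ) j s))
    (inj : ∀ i j : ZMod n, ∀ t ∈ Icc (0 : ℝ) 1, ∀ s ∈ Icc (0 : ℝ) 1,
      ed (p ∘ τ) i t = ed (p ∘ τ) j s → ed p i t = ed p j s)
    (l : List (Bool × ℂ)) (hl : l.IsChain (Step p τ)) (he : l.getLast? = some (true, y)) :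
    (∀ z, l.head? = some (true, z) → dist x z + len l ≤ dist x y →
      z ∈ segment ℝ x y ∧ ∀ u ∈ l, OnSegment p τ x y u) ∧
    (∀ w, l.head? = some (false, w) → ∀ i : ZMod n, ∀ t ∈ Icc (0 : ℝ) 1,
      dist x (ed p i t) + lam * dist (ed (p ∘ τ) i t) w + len l ≤ dist x y →
      w = ed (p ∘ τ) i t ∧ ed p i t ∈ segment ℝ x y ∧ ∀ u ∈ l, OnSegment p τ x y u) := by
  have key1 : ∀ i j : ZMod n, ∀ t ∈ Icc (0 : ℝ) 1, ∀ s ∈ Icc (0 : ℝ) 1,
      dist x (ed p j s) ≤ dist x (ed p i t) + 1 * dist (ed (p ∘ τ) i t) (ed (p ∘ τ) j s) := by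
    intro i j t ht s hs
    have e1 := key i j t ht s hs
    have e2 : 0 ≤ dist (ed (p ∘ τ) i t) (ed (p ∘ τ) j s) := dist_nonneg
    nlinarith
  induction l with
  | nil => simp at he
  | cons u l ih =>
    cases l with
    | nil =>
      have hu : u = (true, y) := by simpa using he
      subst hu
      refine ⟨fun z hz _ => ?_, fun w hw => ?_⟩
      · have hz' : y = z := by simpa using hz
        subst hz'
        refine ⟨right_mem_segment ℝ x y, fun v hv => ?_⟩
        rw [List.mem_singleton] at hv
        subst hv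
        exact Or.inl ⟨y, right_mem_segment ℝ x y, rfl⟩
      · simp at hw
    | cons v l =>
      obtain ⟨hstep, hl'⟩ := List.isChain_cons_cons.1 hl
      have he' : (v :: l).getLast? = some (true, y) := by
        rwa [List.getLast?_cons_cons] at he
      obtain ⟨ih1, ih2⟩ := ih hl' he'
      obtain ⟨P1, P2⟩ := pathI (x := x) (y := y) (lam := 1) zero_le_one le_rfl key1 (v :: l) hl' he'
      have hlen : len (u :: v :: l) = (if u.1 = v.1 then dist u.2 v.2 else 0) + len (v :: l) := rfl
      obtain ⟨c, z'⟩ := v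
      refine ⟨fun z hz hle => ?_, fun w hw i t ht hle => ?_⟩
      · have hu : u = (true, z) := by simpa using hz
        subst hu
        rw [hlen] at hle
        cases c with
        | true =>
          rw [if_pos rfl] at hle
          have e1 := dist_triangle x z z'
          obtain ⟨e2, e3⟩ := ih1 z' rfl (by simp only at hle; linarith)
          have e4 := P1 z' rfl
          have e5 : dist x z + dist z z' = dist x z' := by
            simp only at hle
            linarith
          have e6 : z ∈ segment ℝ x z' := mem_segment_iff_wbtw.2 (dist_add_dist_eq_iff.1 e5)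
          have e7 : z ∈ segment ℝ x y :=
            (convex_segment x y).segment_subset (left_mem_segment ℝ x y) e2 e6
          refine ⟨e7, fun v hv => ?_⟩
          rcases List.mem_cons.1 hv with hv | hv
          · exact Or.inl ⟨z, e7, hv⟩
          · exact e3 v hv
        | false =>
          rw [if_neg (by simp)] at hle
          rcases hstep with h | ⟨i, t, ht, g1, g2⟩ | ⟨i, t, ht, g1, g2⟩
          · simp at h
          · obtain ⟨-, g3⟩ := Prod.mk.inj g1
            obtain ⟨-, g4⟩ := Prod.mk.inj g2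
            obtain ⟨e1, e2, e3⟩ := ih2 z' rfl i t ht (by
              rw [← g3, ← g4, dist_self]
              linarith)
            rw [← g3] at e2
            refine ⟨e2, fun v hv => ?_⟩
            rcases List.mem_cons.1 hv with hv | hv
            · exact Or.inl ⟨z, e2, hv⟩
            · exact e3 v hv
          · simp at g1
      · have hu : u = (false, w) := by simpa using hw
        subst hu
        rw [hlen] at hle
        cases c with
        | true =>
          rw [if_neg (by simp)] at hle
          rcases hstep with h | ⟨j, s, hs, g1, g2⟩ | ⟨j, s, hs, g1, g2⟩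
          · simp at h
          · simp at g1
          · obtain ⟨-, g3⟩ := Prod.mk.inj g1
            obtain ⟨-, g4⟩ := Prod.mk.inj g2
            subst g3
            subst g4
            have e1 := key i j t ht s hs
            have e2 := P1 _ rfl
            have e3 : 0 ≤ dist (ed (p ∘ τ) i t) (ed (p ∘ τ) j s) := dist_nonneg
            have e4 : dist (ed (p ∘ τ) i t) (ed (p ∘ τ) j s) ≤ 0 := by
              by_contra hcon
              push Not at hcon
              nlinarith
            have e5 : ed (p ∘ τ) i t = ed (p ∘ τ) j s := dist_le_zero.1 e4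
            have e6 : ed p i t = ed p j s := inj i j t ht s hs e5
            obtain ⟨e7, e8⟩ := ih1 _ rfl (by
              rw [e5, dist_self, e6] at hle
              linarith)
            refine ⟨e5.symm, e6 ▸ e7, fun v hv => ?_⟩
            rcases List.mem_cons.1 hv with hv | hv
            · exact Or.inr ⟨i, t, ht, e6 ▸ e7, by rw [hv, e5]⟩
            · exact e8 v hv
        | false =>
          rw [if_pos rfl] at hle
          simp only at hle
          have e1 := dist_triangle (ed (p ∘ τ) i t) w z'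
          have e2 : 0 ≤ dist w z' := dist_nonneg
          have e3 : 0 ≤ dist (ed (p ∘ τ) i t) w := dist_nonneg
          have hlam : 0 ≤ lam := by linarith
          obtain ⟨e4, e5, e6⟩ := ih2 z' rfl i t ht (by
            have e7 : lam * dist (ed (p ∘ τ) i t) z' ≤
                lam * (dist (ed (p ∘ τ) i t) w + dist w z') := mul_le_mul_of_nonneg_left e1 hlam
            nlinarith)
          have e7 := P2 z' rfl i t ht
          rw [← e4, dist_self] at e7
          have e8 : 0 ≤ lam * dist (ed (p ∘ τ) i t) w := mul_nonneg hlam e3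
          have e9 : dist w z' ≤ 0 := by linarith
          have e10 : w = z' := dist_le_zero.1 e9
          refine ⟨e10.trans e4, e5, fun v hv => ?_⟩
          rcases List.mem_cons.1 hv with hv | hv
          · exact Or.inr ⟨i, t, ht, e5, by rw [hv, e10, e4]⟩
          · exact e6 v hv
-- END row tight

theorem mainU (hn : 3 ≤ n) (hp : ConvexPolygon p₀)
    (hs : ∀ i j, dist (p₀ (τ i)) (p₀ (τ j)) = dist (p₀ i) (p₀ j)) {x₀ : ℂ}
    (hx : x₀ ∈ interior (convexHull ℝ (range p₀))) :
    ∃ ε η : ℝ, 0 < ε ∧ 0 < η ∧ ∀ p : ZMod n → ℂ, (∀ i, dist (p i) (p₀ i) < ε) →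
      ConvexPolygon p ∧ ∀ x : ℂ, dist x x₀ < ε → x ∈ convexHull ℝ (range p) ∧
        ∀ (y : ℂ) (l : List (Bool × ℂ)), IsPath p τ l → l.head? = some (true, x) →
          l.getLast? = some (true, y) → dist x y + η * lenBack l ≤ len l ∧
            (len l = dist x y → ∀ u ∈ l, OnSegment p τ x y u) := by
  obtain ⟨ε1, ρ, R, hε1, hρ, hR, h1⟩ := opn hn hp (int hn hp hx)
  obtain ⟨ε2, hε2, h2⟩ := hul hn hx
  have hc0 : 0 < ρ ^ 2 / (64 * R ^ 4) := by positivity
  obtain ⟨c, hc⟩ : ∃ c : ℝ, c = min (ρ ^ 2 / (64 * R ^ 4)) 1 := ⟨_, rfl⟩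
  have hc1 : 0 < c := by rw [hc]; exact lt_min hc0 one_pos
  have hc2 : c ≤ 1 := by rw [hc]; exact min_le_right _ _
  have hc3 : c ≤ ρ ^ 2 / (64 * R ^ 4) := by rw [hc]; exact min_le_left _ _
  obtain ⟨ε3, hε3, h3⟩ := seam (τ := τ) hn hp hs (δ := c / 2) (by linarith) (by linarith)
  refine ⟨min ε1 (min ε2 ε3), c / 4, lt_min hε1 (lt_min hε2 hε3), by linarith, fun p hpp => ?_⟩
  obtain ⟨h4, h5, h6⟩ := h1 p fun i => (hpp i).trans_le (min_le_left _ _)
  refine ⟨h4, fun x hxx => ⟨?_, ?_⟩⟩
  · exact h2 p (fun i => (hpp i).trans_le ((min_le_right _ _).trans (min_le_left _ _))) x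
      (hxx.trans_le ((min_le_right _ _).trans (min_le_left _ _)))
  · intro y l hl hh he
    obtain ⟨h7, h8⟩ := h6 x (hxx.trans_le (min_le_left _ _))
    have hseam := h3 p (fun i => (hpp i).trans_le ((min_le_right _ _).trans (min_le_right _ _)))
    have key : ∀ i j : ZMod n, ∀ t ∈ Icc (0 : ℝ) 1, ∀ s ∈ Icc (0 : ℝ) 1,
        dist x (ed p j s) ≤ dist x (ed p i t) +
          (1 - c / 2) * dist (ed (p ∘ τ) i t) (ed (p ∘ τ) j s) := by
      intro i j t ht s hs'
      have e1 := gap h4 hR hρ h5 h7 h8 i j ht hs'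
      have e2 := hseam i j t ht s hs'
      have e3 : 0 ≤ dist (ed p i t) (ed p j s) := dist_nonneg
      have e4 : (1 - ρ ^ 2 / (64 * R ^ 4)) * dist (ed p i t) (ed p j s) ≤
          (1 - c) * dist (ed p i t) (ed p j s) :=
        mul_le_mul_of_nonneg_right (by linarith) e3
      have e5 : (1 - c / 2) * ((1 - c / 2) * dist (ed p i t) (ed p j s)) ≤
          (1 - c / 2) * dist (ed (p ∘ τ) i t) (ed (p ∘ τ) j s) :=
        mul_le_mul_of_nonneg_left e2 (by linarith)
      have e6 : (1 - c) * dist (ed p i t) (ed p j s) ≤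
          (1 - c / 2) * ((1 - c / 2) * dist (ed p i t) (ed p j s)) := by
        rw [← mul_assoc]
        refine mul_le_mul_of_nonneg_right ?_ e3
        nlinarith [sq_nonneg c]
      linarith
    have inj : ∀ i j : ZMod n, ∀ t ∈ Icc (0 : ℝ) 1, ∀ s ∈ Icc (0 : ℝ) 1,
        ed (p ∘ τ) i t = ed (p ∘ τ) j s → ed p i t = ed p j s := by
      intro i j t ht s hs' h
      have e2 := hseam i j t ht s hs'
      rw [h, dist_self] at e2
      have e3 : 0 ≤ dist (ed p i t) (ed p j s) := dist_nonneg
      exact dist_le_zero.1 (by nlinarith)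
    have key' : ∀ i j : ZMod n, ∀ t ∈ Icc (0 : ℝ) 1, ∀ s ∈ Icc (0 : ℝ) 1,
        dist x (ed p j s) ≤ dist x (ed p i t) +
          (1 - c / 4) * dist (ed (p ∘ τ) i t) (ed (p ∘ τ) j s) := by
      intro i j t ht s hs'
      have e := key i j t ht s hs'
      have e3 : 0 ≤ dist (ed (p ∘ τ) i t) (ed (p ∘ τ) j s) := dist_nonneg
      nlinarith
    constructor
    · have e := (pathI (x := x) (y := y) (lam := 1 - c / 4) (by linarith) (by linarith) key' l
        hl.2 he).1 x hh
      rw [dist_self] at e
      have : 1 - (1 - c / 4) = c / 4 := by ring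
      rw [this] at e
      linarith
    · intro hlen
      exact ((tight (x := x) (y := y) (mu := 1 - c / 2) (lam := 1 - c / 4) (by linarith)
        (by linarith) (by linarith) key inj l hl.2 he).1 x hh (by rw [dist_self, hlen, zero_add])).2

end Pool.Agent.Gpc
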